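import Pool.Agent.LHW.Targets

set_option autoImplicit false

/-!
# T2: splitting off all zeros
-/

namespace Pool.Agent.LHW

open Complex Metric Set

namespace J2

theorem fac_zero (f : ℂ → ℂ) (U : Set ℂ) (hf : DifferentiableOn ℂ f U) : Fac f f U 0 :=
  ⟨hf, fun z _ => by simp⟩

theorem fac_cons (f g : ℂ → ℂ) (U : Set ℂ) (s : Multiset ℂ) (hU : IsOpen U)
    (h : Fac f g U s) (a : ℂ) (ha : a ∈ U) (h0 : g a = 0) : Fac f (dslope g a) U (a ::ₘ s) := by
  refine ⟨(Complex.differentiableOn_dslope (hU.mem_nhds ha)).2 h.1, fun z hz => ?_⟩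
  rw [h.2 z hz, Multiset.map_cons, Multiset.prod_cons]
  have h1 : (z - a) * dslope g a z = g z := by
    have h2 := sub_smul_dslope g a z
    rw [h0, sub_zero, smul_eq_mul] at h2
    exact h2
  rw [← h1]
  ring

theorem split (f : ℂ → ℂ) (U K : Set ℂ) (N : ℕ) (hU : IsOpen U) (hK : K ⊆ U)
    (hN : CountLe f U K N) : ∀ (k : ℕ) (s : Multiset ℂ) (g : ℂ → ℂ), Fac f g U s →
    (∀ a ∈ s, a ∈ K) → N ≤ s.card + k →
    ∃ (s : Multiset ℂ) (g : ℂ → ℂ), Fac f g U s ∧ (∀ a ∈ s, a ∈ K) ∧ ∀ z ∈ K, g z ≠ 0 := by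
  intro k
  induction k with
  | zero =>
    intro s g h hs hc
    by_cases h0 : ∀ z ∈ K, g z ≠ 0
    · exact ⟨s, g, h, hs, h0⟩
    push Not at h0
    obtain ⟨a, ha, h0⟩ := h0
    have h1 := hN (a ::ₘ s) (dslope g a) (fac_cons f g U s hU h a (hK ha) h0) (by
      intro b hb
      rcases Multiset.mem_cons.1 hb with hb | hb
      · rw [hb]; exact ha
      · exact hs b hb)
    rw [Multiset.card_cons] at h1
    omega
  | succ k ih =>
    intro s g h hs hc
    by_cases h0 : ∀ z ∈ K, g z ≠ 0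
    · exact ⟨s, g, h, hs, h0⟩
    push Not at h0
    obtain ⟨a, ha, h0⟩ := h0
    refine ih (a ::ₘ s) (dslope g a) (fac_cons f g U s hU h a (hK ha) h0) ?_ ?_
    · intro b hb
      rcases Multiset.mem_cons.1 hb with hb | hb
      · rw [hb]; exact ha
      · exact hs b hb
    · rw [Multiset.card_cons]
      omega

end J2

theorem t2 : T2 := fun f U K N hU hK hf hN =>
  J2.split f U K N hU hK hN N 0 f (J2.fac_zero f U hf) (fun a ha => absurd ha (by simp))
    (by simp)

end Pool.Agent.LHW
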