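import Pool.Agent.LHW.Targets

/-!
# T3: two-constant theorem for sets of positive relative capacity
-/

set_option autoImplicit false

namespace Pool.Agent.LHW

open Complex Metric Set

namespace J3

/-- the outer part of the Blaschke quotient -/
noncomputable def blF (g : ℂ → ℂ) (s : Multiset ℂ) (z : ℂ) : ℂ :=
  g z * (s.map fun a => 1 - (starRingEnd ℂ) a * z).prod

lemma norm_prod (s : Multiset ℂ) (u : ℂ → ℂ) : ‖(s.map u).prod‖ = (s.map fun a => ‖u a‖).prod := by
  induction s using Multiset.induction_on with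
  | empty => simp
  | cons a s ih => simp [ih]

lemma prod_mono (s : Multiset ℂ) (u v : ℂ → ℝ) (h0 : ∀ a ∈ s, 0 ≤ u a)
    (h : ∀ a ∈ s, u a ≤ v a) : (s.map u).prod ≤ (s.map v).prod ∧ 0 ≤ (s.map u).prod := by
  induction s using Multiset.induction_on with
  | empty => simp
  | cons a s ih =>
    have h1 := ih (fun b hb => h0 b (Multiset.mem_cons_of_mem hb))
      (fun b hb => h b (Multiset.mem_cons_of_mem hb))
    have ha0 := h0 a (Multiset.mem_cons_self a s)
    have ha := h a (Multiset.mem_cons_self a s)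
    simp only [Multiset.map_cons, Multiset.prod_cons]
    exact ⟨mul_le_mul ha h1.1 h1.2 (ha0.trans ha), mul_nonneg ha0 h1.2⟩

lemma prod_le_pow (s : Multiset ℂ) (u : ℂ → ℝ) (c : ℝ) (h0 : ∀ a ∈ s, 0 ≤ u a)
    (h : ∀ a ∈ s, u a ≤ c) : (s.map u).prod ≤ c ^ s.card := by
  have h1 := (prod_mono s u (fun _ => c) h0 h).1
  simpa using h1

lemma diff_prod (s : Multiset ℂ) :
    Differentiable ℂ (fun z : ℂ => (s.map fun a => 1 - (starRingEnd ℂ) a * z).prod) := by
  induction s using Multiset.induction_on with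
  | empty => simp
  | cons a s ih =>
    simp only [Multiset.map_cons, Multiset.prod_cons]
    exact ((differentiable_const _).sub ((differentiable_const _).mul differentiable_id)).mul ih

lemma norm_circle {z a : ℂ} (hz : ‖z‖ = 1) : ‖1 - (starRingEnd ℂ) a * z‖ = ‖z - a‖ := by
  have h1 : (starRingEnd ℂ) z * z = 1 := by
    rw [mul_comm, Complex.mul_conj, Complex.normSq_eq_norm_sq, hz]
    norm_num
  have h2 : 1 - (starRingEnd ℂ) a * z = (starRingEnd ℂ) (z - a) * z := by
    rw [map_sub, sub_mul, h1]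
  rw [h2, norm_mul, hz, mul_one, RCLike.norm_conj]

lemma norm_lower {z a : ℂ} {r : ℝ} (hz : ‖z‖ ≤ r) (ha : ‖a‖ ≤ 1 / 2) (_hr : 0 ≤ r) :
    1 - r / 2 ≤ ‖1 - (starRingEnd ℂ) a * z‖ ∧ ‖1 - (starRingEnd ℂ) a * z‖ ≤ 1 + r / 2 := by
  have h1 : ‖(starRingEnd ℂ) a * z‖ ≤ r / 2 := by
    rw [norm_mul, RCLike.norm_conj]
    have := mul_le_mul ha hz (norm_nonneg _) (by norm_num)
    linarith
  constructor
  · have h2 := norm_sub_norm_le (1 : ℂ) ((starRingEnd ℂ) a * z)
    rw [norm_one] at h2
    linarith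
  · have h2 := norm_sub_le (1 : ℂ) ((starRingEnd ℂ) a * z)
    rw [norm_one] at h2
    linarith

section

variable {f g : ℂ → ℂ} {U : Set ℂ} {s : Multiset ℂ}

lemma blF_le_one (hU : closedBall (0 : ℂ) 1 ⊆ U) (hf : ∀ z ∈ closedBall (0 : ℂ) 1, ‖f z‖ ≤ 1)
    (hg : Fac f g U s) {z : ℂ} (hz : z ∈ closedBall (0 : ℂ) 1) : ‖blF g s z‖ ≤ 1 := by
  have hd : DifferentiableOn ℂ (blF g s) (closedBall (0 : ℂ) 1) :=
    (hg.1.mono hU).mul (diff_prod s).differentiableOn
  have hdc : DiffContOnCl ℂ (blF g s) (ball (0 : ℂ) 1) := by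
    apply DifferentiableOn.diffContOnCl
    rw [closure_ball (0 : ℂ) one_ne_zero]
    exact hd
  refine Complex.norm_le_of_forall_mem_frontier_norm_le isBounded_ball hdc ?_ ?_
  · intro w hw
    rw [frontier_ball (0 : ℂ) one_ne_zero, mem_sphere_zero_iff_norm] at hw
    have hwc : w ∈ closedBall (0 : ℂ) 1 := by
      rw [mem_closedBall_zero_iff]
      exact hw.le
    have h1 : ‖blF g s w‖ = ‖f w‖ := by
      rw [blF, hg.2 w (hU hwc), norm_mul, norm_mul, norm_prod, norm_prod, mul_comm]
      congr 2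
      apply Multiset.map_congr rfl
      intro a _
      exact norm_circle hw
    rw [h1]
    exact hf w hwc
  · rw [closure_ball (0 : ℂ) one_ne_zero]
    exact hz

lemma f_le_blF (hU : closedBall (0 : ℂ) 1 ⊆ U)
    (hg : Fac f g U s) (hs : ∀ a ∈ s, a ∈ closedBall (0 : ℂ) (1 / 2)) {z : ℂ}
    (hz : ‖z‖ ≤ 1 / 8) : ‖f z‖ ≤ (2 / 3) ^ s.card * ‖blF g s z‖ := by
  have hzU : z ∈ U := hU (by rw [mem_closedBall_zero_iff]; linarith)
  rw [hg.2 z hzU, blF, norm_mul, norm_mul, norm_prod, norm_prod]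
  have h1 : (s.map fun a => ‖z - a‖).prod ≤
      (s.map fun a => (2 / 3 : ℝ) * ‖1 - (starRingEnd ℂ) a * z‖).prod := by
    refine (prod_mono s _ _ (fun _ _ => norm_nonneg _) ?_).1
    intro a ha
    have ha' : ‖a‖ ≤ 1 / 2 := by simpa using hs a ha
    have h2 := (norm_lower hz ha' (by norm_num)).1
    have h3 := norm_sub_le z a
    linarith
  rw [Multiset.prod_map_mul] at h1
  simp only [Multiset.map_const', Multiset.prod_replicate] at h1
  calc (s.map fun a => ‖z - a‖).prod * ‖g z‖
      ≤ ((2 / 3 : ℝ) ^ s.card * (s.map fun a => ‖1 - (starRingEnd ℂ) a * z‖).prod) * ‖g z‖ :=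
        mul_le_mul_of_nonneg_right h1 (norm_nonneg _)
    _ = _ := by ring

lemma card_le (hU : closedBall (0 : ℂ) 1 ⊆ U) (hf : ∀ z ∈ closedBall (0 : ℂ) 1, ‖f z‖ ≤ 1)
    (hg : Fac f g U s) (hs : ∀ a ∈ s, a ∈ closedBall (0 : ℂ) (1 / 2)) {z : ℂ}
    (hz : ‖z‖ ≤ 1 / 8) (h0 : f z ≠ 0) : (s.card : ℝ) ≤ 3 * (-Real.log ‖f z‖) := by
  have h1 := f_le_blF hU hg hs hz
  have h2 := blF_le_one hU hf hg (z := z) (by rw [mem_closedBall_zero_iff]; linarith)
  have h3 : ‖f z‖ ≤ (2 / 3 : ℝ) ^ s.card := by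
    refine h1.trans ?_
    have := mul_le_mul_of_nonneg_left h2 (by positivity : (0 : ℝ) ≤ (2 / 3 : ℝ) ^ s.card)
    linarith
  have h4 : 0 < ‖f z‖ := norm_pos_iff.mpr h0
  have h5 := Real.log_le_log h4 h3
  rw [Real.log_pow] at h5
  have h6 : Real.log (2 / 3) ≤ 2 / 3 - 1 := Real.log_le_sub_one_of_pos (by norm_num)
  have h7 : (s.card : ℝ) * Real.log (2 / 3) ≤ (s.card : ℝ) * (2 / 3 - 1) :=
    mul_le_mul_of_nonneg_left h6 (Nat.cast_nonneg _)
  linarith

end

/-- Harnack inequality for a zero free function bounded by one. -/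
lemma harnack {F : ℂ → ℂ} {x : ℂ} (hF : DifferentiableOn ℂ F (ball x (3 / 8)))
    (h0 : ∀ z ∈ ball x (3 / 8), F z ≠ 0) (h1 : ∀ z ∈ ball x (3 / 8), ‖F z‖ ≤ 1) {z : ℂ}
    (hz : ‖z - x‖ ≤ 1 / 4) : 5 * Real.log ‖F x‖ ≤ Real.log ‖F z‖ := by
  have hR : (0 : ℝ) < 3 / 8 := by norm_num
  have hx : x ∈ ball x (3 / 8 : ℝ) := mem_ball_self hR
  have hd : DifferentiableOn ℂ (fun z => deriv F z / F z) (ball x (3 / 8)) :=
    (hF.deriv isOpen_ball).div hF h0
  obtain ⟨G, hGx, hG⟩ := hd.isExactOn_ball.with_val_at x (Complex.log (F x))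
  have hexp : ∀ z ∈ ball x (3 / 8 : ℝ), F z = Complex.exp (G z) := by
    have hG' : ∀ z ∈ ball x (3 / 8 : ℝ), HasDerivAt (fun z => F z * Complex.exp (-G z)) 0 z := by
      intro z hz
      have hFz : HasDerivAt F (deriv F z) z :=
        (hF.differentiableAt (isOpen_ball.mem_nhds hz)).hasDerivAt
      have h1 : HasDerivAt (fun z => F z * Complex.exp (-G z)) (deriv F z * Complex.exp (-G z) +
          F z * (Complex.exp (-G z) * -(deriv F z / F z))) z :=
        hFz.mul ((hG z hz).neg.cexp)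
      have h3 : F z * (deriv F z / F z) = deriv F z := mul_div_cancel₀ _ (h0 z hz)
      have h4 : deriv F z * Complex.exp (-G z) +
          F z * (Complex.exp (-G z) * -(deriv F z / F z)) = 0 := by
        linear_combination (-Complex.exp (-G z)) * h3
      rw [h4] at h1
      exact h1
    intro z hz
    have hconst : F z * Complex.exp (-G z) = F x * Complex.exp (-G x) := by
      apply (convex_ball x (3 / 8 : ℝ)).is_const_of_fderivWithin_eq_zero (𝕜 := ℂ)
        (f := fun z => F z * Complex.exp (-G z))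
      · intro w hw
        exact (hG' w hw).differentiableAt.differentiableWithinAt
      · intro w hw
        rw [fderivWithin_of_isOpen isOpen_ball hw]
        have := (hG' w hw).hasFDerivAt.fderiv
        rw [this]
        ext
        simp
      · exact hz
      · exact hx
    have h2 : F x * Complex.exp (-G x) = 1 := by
      rw [hGx, Complex.exp_neg, Complex.exp_log (h0 x hx)]
      exact mul_inv_cancel₀ (h0 x hx)
    rw [h2, Complex.exp_neg] at hconst
    have h3 := Complex.exp_ne_zero (G z)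
    field_simp at hconst
    exact hconst
  have hre : ∀ z ∈ ball x (3 / 8 : ℝ), (G z).re = Real.log ‖F z‖ := by
    intro w hw
    rw [hexp w hw, Complex.norm_exp, Real.log_exp]
  have hz' : z ∈ ball x (3 / 8 : ℝ) := by
    rw [mem_ball_iff_norm]
    linarith
  rw [← hre x hx, ← hre z hz']
  have hle : ∀ z ∈ ball x (3 / 8 : ℝ), (G z).re ≤ 0 := by
    intro w hw
    rw [hre w hw]
    exact Real.log_nonpos (norm_nonneg _) (h1 w hw)
  apply le_of_forall_pos_le_add
  intro ε hε
  have hx0 := hle x hx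
  have hmap : ∀ w ∈ ball (0 : ℂ) (3 / 8), x + w ∈ ball x (3 / 8 : ℝ) := by
    intro w hw
    rw [mem_ball_iff_norm]
    rw [mem_ball_zero_iff] at hw
    simpa using hw
  have hGd : DifferentiableOn ℂ G (ball x (3 / 8)) := fun w hw =>
    (hG w hw).differentiableAt.differentiableWithinAt
  have hdiff : DifferentiableOn ℂ (fun w => G (x + w) - G x) (ball 0 (3 / 8)) :=
    (hGd.comp (by fun_prop) hmap).sub (differentiableOn_const _)
  have hbc := Complex.borelCaratheodory_zero (f := fun w => G (x + w) - G x)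
    (M := -(G x).re + ε / 4) (R := 3 / 8) (z := z - x) (by linarith) hdiff
    (by
      intro w hw
      have := hle _ (hmap w hw)
      simp only [mem_ofPred_eq, Complex.sub_re]
      linarith) hR
    (by
      rw [mem_ball_zero_iff]
      linarith) (by simp)
  simp only [add_sub_cancel] at hbc
  have hpos : (0 : ℝ) < 3 / 8 - ‖z - x‖ := by linarith
  have h5 : 2 * (-(G x).re + ε / 4) * ‖z - x‖ / (3 / 8 - ‖z - x‖) ≤
      4 * (-(G x).re + ε / 4) := by
    rw [div_le_iff₀ hpos]
    have hM : 0 < -(G x).re + ε / 4 := by linarith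
    nlinarith
  have h6 : -(‖G z - G x‖) ≤ (G z - G x).re := by
    have := Complex.abs_re_le_norm (G z - G x)
    have h7 := neg_abs_le (G z - G x).re
    linarith
  rw [Complex.sub_re] at h6
  linarith

lemma unit_case (h2 : T2) {c : ℝ} (hc : 0 < c) {f : ℂ → ℂ} {U : Set ℂ} (hUo : IsOpen U)
    (hU : closedBall (0 : ℂ) 1 ⊆ U) (hfd : DifferentiableOn ℂ f U)
    (hf : ∀ z ∈ closedBall (0 : ℂ) 1, ‖f z‖ ≤ 1) {m : ℝ} (hm : 0 < m) (_hm1 : m ≤ 1) {E : Set ℂ}
    (hE : E ⊆ closedBall (0 : ℂ) (1 / 8)) (hEm : ∀ z ∈ E, ‖f z‖ ≤ m)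
    (hcap : ∀ s : Multiset ℂ, ∃ z ∈ E, c ^ s.card ≤ ‖(s.map fun a => z - a).prod‖)
    {w : ℂ} (hw : w ∈ closedBall (0 : ℂ) (1 / 8)) :
    ‖f w‖ ≤ m ^ (1 / (6 + 3 * |Real.log (17 / (16 * c))|)) := by
  set L := |Real.log (17 / (16 * c))| with hL
  have hL0 : 0 ≤ L := abs_nonneg _
  rw [mem_closedBall_zero_iff] at hw
  rcases eq_or_ne (f w) 0 with h0 | h0
  · rw [h0, norm_zero]
    positivity
  set h := -Real.log ‖f w‖ with hh
  have hfw : 0 < ‖f w‖ := norm_pos_iff.mpr h0
  have hh0 : 0 ≤ h := by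
    have := Real.log_nonpos (norm_nonneg _) (hf w (by rw [mem_closedBall_zero_iff]; linarith))
    linarith
  have hK : closedBall (0 : ℂ) (1 / 2) ⊆ U :=
    (closedBall_subset_closedBall (by norm_num)).trans hU
  have hcount : CountLe f U (closedBall (0 : ℂ) (1 / 2)) ⌊3 * h⌋₊ := by
    intro s g hg hs
    exact Nat.le_floor (card_le hU hf hg hs hw h0)
  obtain ⟨s, g, hg, hs, hg0⟩ := h2 f U _ _ hUo hK hfd hcount
  have hcard : (s.card : ℝ) ≤ 3 * h := card_le hU hf hg hs hw h0
  obtain ⟨z, hzE, hz⟩ := hcap s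
  have hz8 : ‖z‖ ≤ 1 / 8 := by simpa using hE hzE
  have hsub : ball w (3 / 8 : ℝ) ⊆ closedBall (0 : ℂ) (1 / 2) := by
    intro u hu
    rw [mem_ball_iff_norm] at hu
    rw [mem_closedBall_zero_iff]
    have := norm_add_le (u - w) w
    rw [sub_add_cancel] at this
    linarith
  have hFd : DifferentiableOn ℂ (blF g s) (ball w (3 / 8)) :=
    (hg.1.mono (hsub.trans hK)).mul (diff_prod s).differentiableOn
  have hF0 : ∀ u ∈ ball w (3 / 8 : ℝ), blF g s u ≠ 0 := by
    intro u hu
    have hu2 := hsub hu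
    refine mul_ne_zero (hg0 u hu2) ?_
    rw [mem_closedBall_zero_iff] at hu2
    intro h
    rw [Multiset.prod_eq_zero_iff, Multiset.mem_map] at h
    obtain ⟨a, ha, h⟩ := h
    have ha' : ‖a‖ ≤ 1 / 2 := by simpa using hs a ha
    have h3 := (norm_lower hu2 ha' (by norm_num)).1
    rw [h, norm_zero] at h3
    norm_num at h3
  have hF1 : ∀ u ∈ ball w (3 / 8 : ℝ), ‖blF g s u‖ ≤ 1 := by
    intro u hu
    exact blF_le_one hU hf hg (closedBall_subset_closedBall (by norm_num) (hsub hu))
  have hzw : ‖z - w‖ ≤ 1 / 4 := by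
    have := norm_sub_le z w
    linarith
  have hhar := harnack hFd hF0 hF1 hzw
  have hFw : -h ≤ Real.log ‖blF g s w‖ := by
    have h3 := f_le_blF hU hg hs hw
    have h4 : ‖f w‖ ≤ ‖blF g s w‖ := by
      refine h3.trans ?_
      have h5 : (2 / 3 : ℝ) ^ s.card ≤ 1 := pow_le_one₀ (by norm_num) (by norm_num)
      have := mul_le_mul_of_nonneg_right h5 (norm_nonneg (blF g s w))
      linarith
    have h6 := Real.log_le_log hfw h4
    linarith
  -- lower bound for `f z`
  have hzU : z ∈ U := hU (by rw [mem_closedBall_zero_iff]; linarith)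
  have hFz0 : blF g s z ≠ 0 := hF0 z (by rw [mem_ball_iff_norm]; linarith)
  have hkey : c ^ s.card * ‖blF g s z‖ ≤ ‖f z‖ * (17 / 16) ^ s.card := by
    rw [hg.2 z hzU, blF, norm_mul, norm_mul]
    have h3 : ‖(s.map fun a => 1 - (starRingEnd ℂ) a * z).prod‖ ≤ (17 / 16 : ℝ) ^ s.card := by
      rw [norm_prod]
      refine prod_le_pow s _ _ (fun _ _ => norm_nonneg _) ?_
      intro a ha
      have ha' : ‖a‖ ≤ 1 / 2 := by simpa using hs a ha
      have h3 := (norm_lower hz8 ha' (by norm_num)).2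
      linarith
    calc c ^ s.card * (‖g z‖ * ‖(s.map fun a => 1 - (starRingEnd ℂ) a * z).prod‖)
        ≤ ‖(s.map fun a => z - a).prod‖ * (‖g z‖ * (17 / 16 : ℝ) ^ s.card) := by
          refine mul_le_mul hz (mul_le_mul_of_nonneg_left h3 (norm_nonneg _)) ?_ (norm_nonneg _)
          positivity
      _ = _ := by ring
  have hcn : 0 < c ^ s.card := pow_pos hc _
  have hFzpos : 0 < ‖blF g s z‖ := norm_pos_iff.mpr hFz0
  have hkey2 : c ^ s.card * ‖blF g s z‖ ≤ m * (17 / 16) ^ s.card :=
    hkey.trans (mul_le_mul_of_nonneg_right (hEm z hzE) (by positivity))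
  have hlog := Real.log_le_log (mul_pos hcn hFzpos) hkey2
  rw [Real.log_mul hcn.ne' hFzpos.ne', Real.log_mul hm.ne' (by positivity), Real.log_pow,
    Real.log_pow] at hlog
  have hL1 : Real.log (17 / 16) - Real.log c ≤ L := by
    have h3 : Real.log (17 / (16 * c)) = Real.log (17 / 16) - Real.log c := by
      rw [← Real.log_div (by norm_num) hc.ne']
      congr 1
      field_simp
    rw [← h3]
    exact le_abs_self _
  have hn0 : (0 : ℝ) ≤ s.card := Nat.cast_nonneg _
  have h7 : (s.card : ℝ) * (Real.log (17 / 16) - Real.log c) ≤ 3 * h * L :=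
    (mul_le_mul_of_nonneg_left hL1 hn0).trans (mul_le_mul_of_nonneg_right hcard hL0)
  have h8 : -Real.log m ≤ h * (6 + 3 * L) := by nlinarith
  have hlm : Real.log ‖f w‖ ≤ 1 / (6 + 3 * L) * Real.log m := by
    have hp : 0 < 6 + 3 * L := by linarith
    have h9 : -(h * (6 + 3 * L)) / (6 + 3 * L) ≤ Real.log m / (6 + 3 * L) :=
      div_le_div_of_nonneg_right (by linarith) hp.le
    have h10 : -(h * (6 + 3 * L)) / (6 + 3 * L) = -h := by
      field_simp
    rw [h10] at h9
    have h11 : 1 / (6 + 3 * L) * Real.log m = Real.log m / (6 + 3 * L) := by ring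
    rw [h11]
    linarith
  rw [Real.rpow_def_of_pos hm, ← Real.log_le_iff_le_exp hfw, mul_comm]
  exact hlm

end J3

open J3 in
/-- T3, given T2. -/
theorem t3 (h2 : T2) : T3 := by
  intro c hc
  have hL0 : 0 ≤ |Real.log (17 / (16 * c))| := abs_nonneg _
  refine ⟨1 / (6 + 3 * |Real.log (17 / (16 * c))|), by positivity, ?_, ?_⟩
  · rw [div_lt_one (by positivity)]
    linarith
  intro f U x R M m E hR hUo hU hfd hfM hm hmM hE hEm hcap z hz
  have hM : 0 < M := hm.trans_le hmM
  have hRC : (R : ℂ) ≠ 0 := by exact_mod_cast hR.ne'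
  -- scaling
  have hsc : ∀ (r : ℝ) (w : ℂ), w ∈ closedBall (0 : ℂ) r ↔ x + R * w ∈ closedBall x (R * r) := by
    intro r w
    rw [mem_closedBall_zero_iff, mem_closedBall_iff_norm, add_sub_cancel_left, norm_mul,
      Complex.norm_real, Real.norm_eq_abs, abs_of_pos hR]
    exact (mul_le_mul_iff_right₀ hR).symm
  have hcont : Continuous (fun w : ℂ => x + R * w) := by fun_prop
  have key := unit_case h2 hc (f := fun w => f (x + R * w) / M)
    (U := (fun w : ℂ => x + R * w) ⁻¹' U) (hUo.preimage hcont)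
    (by
      intro w hw
      have := (hsc 1 w).1 hw
      rw [mul_one] at this
      exact hU this)
    (by
      refine DifferentiableOn.div_const ?_ _
      exact hfd.comp (by fun_prop) (fun w hw => hw))
    (by
      intro w hw
      have := (hsc 1 w).1 hw
      rw [mul_one] at this
      rw [norm_div, Complex.norm_real, Real.norm_eq_abs, abs_of_pos hM, div_le_one hM]
      exact hfM _ this)
    (m := m / M) (by positivity) (by rwa [div_le_one hM])
    (E := (fun w : ℂ => x + R * w) ⁻¹' E)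
    (by
      intro w hw
      have h1 := hE hw
      rw [hsc]
      have h2 : R * (1 / 8) = R / 8 := by ring
      rw [h2]
      exact h1)
    (by
      intro w hw
      rw [norm_div, Complex.norm_real, Real.norm_eq_abs, abs_of_pos hM]
      exact div_le_div_of_nonneg_right (hEm _ hw) hM.le)
    (by
      intro s
      obtain ⟨u, huE, hu⟩ := hcap (s.map fun b => x + R * b)
      refine ⟨(u - x) / R, ?_, ?_⟩
      · have h1 : x + R * ((u - x) / R) = u := by
          field_simp
          ring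
        simp only [mem_preimage, h1]
        exact huE
      · rw [Multiset.card_map, Multiset.map_map] at hu
        have h1 : (s.map ((fun a => u - a) ∘ fun b => x + R * b)).prod =
            (R : ℂ) ^ s.card * (s.map fun a => (u - x) / R - a).prod := by
          have h2 : (s.map ((fun a => u - a) ∘ fun b => x + R * b)) =
              s.map fun a => (R : ℂ) * ((u - x) / R - a) := by
            apply Multiset.map_congr rfl
            intro a _
            simp only [Function.comp_apply]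
            field_simp
            ring
          rw [h2, Multiset.prod_map_mul]
          simp
        rw [h1, norm_mul, norm_pow, Complex.norm_real, Real.norm_eq_abs, abs_of_pos hR,
          mul_pow, mul_comm] at hu
        exact le_of_mul_le_mul_left hu (pow_pos hR _))
    (w := (z - x) / R)
    (by
      rw [hsc]
      have h1 : x + R * ((z - x) / R) = z := by
        field_simp
        ring
      have h2 : R * (1 / 8) = R / 8 := by ring
      rw [h1, h2]
      exact hz)
  have h1 : x + R * ((z - x) / R) = z := by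
    field_simp
    ring
  simp only [h1] at key
  rw [norm_div, Complex.norm_real, Real.norm_eq_abs, abs_of_pos hM, div_le_iff₀ hM] at key
  rw [mul_comm]
  exact key

end Pool.Agent.LHW
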