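import Pool.Agent.LHW.J1
import Pool.Agent.LHW.J2
import Pool.Agent.LHW.J3
import Pool.Agent.Lib.ZetaLine

set_option autoImplicit false

/-!
# T4: propagation of smallness through a disc with few zeros
-/

namespace Pool.Agent.LHW

open Complex Metric Set

namespace J4

/-- A holomorphic logarithm on a disc. -/
lemma exists_log {F : ℂ → ℂ} {x : ℂ} {R : ℝ} (hR : 0 < R)
    (hF : DifferentiableOn ℂ F (ball x R)) (h0 : ∀ z ∈ ball x R, F z ≠ 0) :
    ∃ G : ℂ → ℂ, DifferentiableOn ℂ G (ball x R) ∧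
      ∀ z ∈ ball x R, (G z).re = Real.log ‖F z‖ := by
  have hx : x ∈ ball x R := mem_ball_self hR
  have hd : DifferentiableOn ℂ (fun z => deriv F z / F z) (ball x R) :=
    (hF.deriv isOpen_ball).div hF h0
  obtain ⟨G, hGx, hG⟩ := hd.isExactOn_ball.with_val_at x (Complex.log (F x))
  have hexp : ∀ z ∈ ball x R, F z = Complex.exp (G z) := by
    have hG' : ∀ z ∈ ball x R, HasDerivAt (fun z => F z * Complex.exp (-G z)) 0 z := by
      intro z hz
      have hFz : HasDerivAt F (deriv F z) z :=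
        (hF.differentiableAt (isOpen_ball.mem_nhds hz)).hasDerivAt
      have h1 : HasDerivAt (fun z => F z * Complex.exp (-G z)) (deriv F z * Complex.exp (-G z) +
          F z * (Complex.exp (-G z) * -(deriv F z / F z))) z :=
        hFz.mul ((hG z hz).neg.cexp)
      have h3 : F z * (deriv F z / F z) = deriv F z := mul_div_cancel₀ _ (h0 z hz)
      have h4 : deriv F z * Complex.exp (-G z) +
          F z * (Complex.exp (-G z) * -(deriv F z / F z)) = 0 := by
        linear_combination (-Complex.exp (-G z)) * h3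
      rw [h4] at h1
      exact h1
    intro z hz
    have hconst : F z * Complex.exp (-G z) = F x * Complex.exp (-G x) := by
      apply (convex_ball x R).is_const_of_fderivWithin_eq_zero (𝕜 := ℂ)
        (f := fun z => F z * Complex.exp (-G z))
      · intro w hw
        exact (hG' w hw).differentiableAt.differentiableWithinAt
      · intro w hw
        rw [fderivWithin_of_isOpen isOpen_ball hw]
        have := (hG' w hw).hasFDerivAt.fderiv
        rw [this]
        ext
        simp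
      · exact hz
      · exact hx
    have h2 : F x * Complex.exp (-G x) = 1 := by
      rw [hGx, Complex.exp_neg, Complex.exp_log (h0 x hx)]
      exact mul_inv_cancel₀ (h0 x hx)
    rw [h2, Complex.exp_neg] at hconst
    have h3 := Complex.exp_ne_zero (G z)
    field_simp at hconst
    exact hconst
  refine ⟨G, fun z hz => (hG z hz).differentiableAt.differentiableWithinAt, ?_⟩
  intro w hw
  rw [hexp w hw, Complex.norm_exp, Real.log_exp]

/-- Borel-Caratheodory around an arbitrary centre. -/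
lemma bc {G : ℂ → ℂ} {x : ℂ} {R M : ℝ} (hM : 0 < M) (hR : 0 < R)
    (hG : DifferentiableOn ℂ G (ball x R)) (h : ∀ z ∈ ball x R, (G z).re - (G x).re ≤ M) {z : ℂ}
    (hz : ‖z - x‖ < R) : ‖G z - G x‖ ≤ 2 * M * ‖z - x‖ / (R - ‖z - x‖) := by
  have hmap : ∀ w ∈ ball (0 : ℂ) R, x + w ∈ ball x R := by
    intro w hw
    rw [mem_ball_iff_norm]
    rw [mem_ball_zero_iff] at hw
    simpa using hw
  have hdiff : DifferentiableOn ℂ (fun w => G (x + w) - G x) (ball 0 R) :=
    (hG.comp (by fun_prop) hmap).sub (differentiableOn_const _)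
  have hbc := Complex.borelCaratheodory_zero (f := fun w => G (x + w) - G x)
    (M := M) (R := R) (z := z - x) hM hdiff
    (by
      intro w hw
      have := h _ (hmap w hw)
      simp only [mem_ofPred_eq, Complex.sub_re]
      linarith) hR
    (by
      rw [mem_ball_zero_iff]
      exact hz) (by simp)
  simp only [add_sub_cancel] at hbc
  exact hbc

/-- the core estimate, with strict positivity -/
lemma core_pos {F : ℂ → ℂ} {A β : ℝ} (hd : DifferentiableOn ℂ F (closedBall (0 : ℂ) 1))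
    (h0 : ∀ z ∈ closedBall (0 : ℂ) (1 / 2), F z ≠ 0)
    (hA : ∀ z ∈ closedBall (0 : ℂ) 1, ‖F z‖ ≤ Real.exp A) (hβ : 0 < β) (hβA : β ≤ A)
    (hsm : ∀ z ∈ closedBall (0 : ℂ) (3 / 128), ‖F z‖ ≤ Real.exp β) {w : ℂ}
    (hw : ‖w‖ ≤ 1 / 64) (hFw : Real.exp (-β) ≤ ‖F w‖) {z : ℂ} (hz : ‖z‖ ≤ 1 / 16) :
    |Real.log ‖F z‖| ≤ 6 * (β ^ (1 / 4 : ℝ) * A ^ (3 / 4 : ℝ)) := by
  have hA0 : 0 < A := hβ.trans_le hβA
  have hR : (0 : ℝ) < 31 / 64 := by norm_num
  have hsub : ∀ u ∈ ball w (31 / 64 : ℝ), ‖u‖ ≤ 1 / 2 := by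
    intro u hu
    rw [mem_ball_iff_norm] at hu
    have := norm_add_le (u - w) w
    rw [sub_add_cancel] at this
    linarith
  obtain ⟨G, hGd, hG⟩ := exists_log (F := F) (x := w) hR
    (hd.mono fun u hu => by
      rw [mem_closedBall_zero_iff]
      linarith [hsub u hu])
    (fun u hu => h0 u (by
      rw [mem_closedBall_zero_iff]
      exact hsub u hu))
  have hF0 : ∀ u : ℂ, ‖u‖ ≤ 1 / 2 → 0 < ‖F u‖ := fun u hu =>
    norm_pos_iff.mpr (h0 u (by rwa [mem_closedBall_zero_iff]))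
  have hww : w ∈ ball w (31 / 64 : ℝ) := mem_ball_self hR
  have hGw : -β ≤ (G w).re := by
    rw [hG w hww, Real.le_log_iff_exp_le (hF0 w (by linarith))]
    exact hFw
  have hGw2 : (G w).re ≤ β := by
    rw [hG w hww, Real.log_le_iff_le_exp (hF0 w (by linarith))]
    exact hsm w (by rw [mem_closedBall_zero_iff]; linarith)
  -- large ball
  have hlarge : ∀ u : ℂ, ‖u - w‖ ≤ 1 / 4 → ‖G u - G w‖ ≤ 5 * A := by
    intro u hu
    have h1 := bc (M := 2 * A) (by linarith) hR hGd (by
      intro v hv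
      have h2 : (G v).re ≤ A := by
        rw [hG v hv, Real.log_le_iff_le_exp (hF0 v (hsub v hv))]
        exact hA v (by rw [mem_closedBall_zero_iff]; linarith [hsub v hv])
      linarith) (z := u) (by linarith)
    refine h1.trans ?_
    rw [div_le_iff₀ (by linarith)]
    nlinarith
  -- small ball
  have hsmall : ∀ u : ℂ, ‖u - w‖ ≤ 1 / 256 → ‖G u - G w‖ ≤ 4 * β := by
    intro u hu
    have h1 := bc (x := w) (R := 1 / 128) (M := 2 * β) (by linarith) (by norm_num)
      (hGd.mono (ball_subset_ball (by norm_num))) (by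
      intro v hv
      have hv' : v ∈ ball w (31 / 64 : ℝ) := ball_subset_ball (by norm_num) hv
      have h2 : (G v).re ≤ β := by
        rw [hG v hv', Real.log_le_iff_le_exp (hF0 v (hsub v hv'))]
        refine hsm v ?_
        rw [mem_ball_iff_norm] at hv
        rw [mem_closedBall_zero_iff]
        have := norm_add_le (v - w) w
        rw [sub_add_cancel] at this
        linarith
      linarith) (z := u) (by linarith)
    refine h1.trans ?_
    rw [div_le_iff₀ (by linarith)]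
    nlinarith
  -- exponents
  have hbb : β = β ^ (1 / 4 : ℝ) * β ^ (3 / 4 : ℝ) := by
    rw [← Real.rpow_add hβ]
    norm_num
  have hbq0 : 0 < β ^ (1 / 4 : ℝ) := Real.rpow_pos_of_pos hβ _
  have hA3 : 0 < A ^ (3 / 4 : ℝ) := Real.rpow_pos_of_pos hA0 _
  have hbA : β ≤ β ^ (1 / 4 : ℝ) * A ^ (3 / 4 : ℝ) := by
    calc β = β ^ (1 / 4 : ℝ) * β ^ (3 / 4 : ℝ) := hbb
      _ ≤ _ := mul_le_mul_of_nonneg_left (Real.rpow_le_rpow hβ.le hβA (by norm_num)) hbq0.le
  have hmain : ∀ u : ℂ, ‖u - w‖ ≤ 5 / 64 →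
      ‖G u - G w‖ ≤ 5 * (β ^ (1 / 4 : ℝ) * A ^ (3 / 4 : ℝ)) := by
    intro u hu
    rcases le_total ‖u - w‖ (1 / 256) with h1 | h1
    · have := hsmall u h1
      have h2 : 0 < β ^ (1 / 4 : ℝ) * A ^ (3 / 4 : ℝ) := mul_pos hbq0 hA3
      linarith
    · have hcl : closedBall w (1 / 4 : ℝ) ⊆ ball w (31 / 64 : ℝ) :=
        closedBall_subset_ball (by norm_num)
      have key := Lib.ZetaLine.three_circles (f := fun u => G u - G w) (c := w) (z := u)
        (r₁ := 1 / 256) (r₃ := 1 / 4) (M₁ := 4 * β) (M₃ := 5 * A) (by norm_num) (by norm_num)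
        ((hGd.mono hcl).sub (differentiableOn_const _))
        (by
          intro v hv
          rw [mem_sphere_iff_norm] at hv
          exact hsmall v hv.le)
        (by
          intro v hv
          rw [mem_closedBall_iff_norm] at hv
          exact hlarge v hv) h1 (by linarith)
      refine key.trans ?_
      have h256 : Real.log (1 / 256) = -(8 * Real.log 2) := by
        rw [one_div, Real.log_inv]
        rw [show (256 : ℝ) = 2 ^ (8 : ℕ) by norm_num, Real.log_pow]
        norm_num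
      have h4 : Real.log (1 / 4) = -(2 * Real.log 2) := by
        rw [one_div, Real.log_inv]
        rw [show (4 : ℝ) = 2 ^ (2 : ℕ) by norm_num, Real.log_pow]
        norm_num
      have hl2 : 0 < Real.log 2 := Real.log_pos (by norm_num)
      have hupos : 0 < ‖u - w‖ := by linarith
      have hlu1 : Real.log (1 / 256) ≤ Real.log ‖u - w‖ := Real.log_le_log (by norm_num) h1
      have hlu2 : Real.log ‖u - w‖ ≤ Real.log (5 / 64) := Real.log_le_log hupos hu
      have h564 : 4 * Real.log (5 / 64) ≤ -(14 * Real.log 2) := by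
        have e1 : 4 * Real.log (5 / 64) = Real.log ((5 / 64) ^ (4 : ℕ)) := by
          rw [Real.log_pow]; norm_num
        have e2 : -(14 * Real.log 2) = Real.log ((1 / 2) ^ (14 : ℕ)) := by
          rw [Real.log_pow, one_div, Real.log_inv]; norm_num
        rw [e1, e2]
        exact Real.log_le_log (by norm_num) (by norm_num)
      set θ := (Real.log ‖u - w‖ - Real.log (1 / 256)) / (Real.log (1 / 4) - Real.log (1 / 256))
        with hθ
      have hθ0 : 0 ≤ θ := by
        rw [hθ, h256, h4]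
        rw [h256] at hlu1
        apply div_nonneg <;> linarith
      have hθ1 : θ ≤ 3 / 4 := by
        rw [hθ, h256, h4, div_le_iff₀ (by linarith)]
        linarith
      -- (4β)^(1-θ) (5A)^θ ≤ (4β)^(1/4) (5A)^(3/4)
      have h4b : 0 < 4 * β := by linarith
      have h5a : 0 < 5 * A := by linarith
      have hstep : (4 * β) ^ (1 - θ) * (5 * A) ^ θ ≤
          (4 * β) ^ (1 / 4 : ℝ) * (5 * A) ^ (3 / 4 : ℝ) := by
        have e1 : (4 * β) ^ (1 - θ) = (4 * β) ^ (1 / 4 : ℝ) * (4 * β) ^ (3 / 4 - θ) := by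
          rw [← Real.rpow_add h4b]
          congr 1
          ring
        have e2 : (5 * A) ^ (3 / 4 : ℝ) = (5 * A) ^ (3 / 4 - θ) * (5 * A) ^ θ := by
          rw [← Real.rpow_add h5a]
          congr 1
          ring
        rw [e1, e2, mul_assoc]
        apply mul_le_mul_of_nonneg_left _ (Real.rpow_nonneg h4b.le _)
        apply mul_le_mul_of_nonneg_right _ (Real.rpow_nonneg h5a.le _)
        exact Real.rpow_le_rpow h4b.le (by linarith) (by linarith)
      refine hstep.trans ?_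
      rw [Real.mul_rpow (by norm_num) hβ.le, Real.mul_rpow (by norm_num) hA0.le]
      have e3 : (4 : ℝ) ^ (1 / 4 : ℝ) ≤ 5 ^ (1 / 4 : ℝ) :=
        Real.rpow_le_rpow (by norm_num) (by norm_num) (by norm_num)
      have e4 : (5 : ℝ) ^ (1 / 4 : ℝ) * 5 ^ (3 / 4 : ℝ) = 5 := by
        rw [← Real.rpow_add (by norm_num)]
        norm_num
      have e5 : (0 : ℝ) ≤ 5 ^ (3 / 4 : ℝ) := by positivity
      have e6 : (4 : ℝ) ^ (1 / 4 : ℝ) * 5 ^ (3 / 4 : ℝ) ≤ 5 := by
        calc (4 : ℝ) ^ (1 / 4 : ℝ) * 5 ^ (3 / 4 : ℝ) ≤ 5 ^ (1 / 4 : ℝ) * 5 ^ (3 / 4 : ℝ) :=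
              mul_le_mul_of_nonneg_right e3 e5
          _ = 5 := e4
      calc (4 : ℝ) ^ (1 / 4 : ℝ) * β ^ (1 / 4 : ℝ) * (5 ^ (3 / 4 : ℝ) * A ^ (3 / 4 : ℝ))
          = ((4 : ℝ) ^ (1 / 4 : ℝ) * 5 ^ (3 / 4 : ℝ)) * (β ^ (1 / 4 : ℝ) * A ^ (3 / 4 : ℝ)) := by
            ring
        _ ≤ _ := mul_le_mul_of_nonneg_right e6 (mul_pos hbq0 hA3).le
  have hzw : ‖z - w‖ ≤ 5 / 64 := by
    have := norm_sub_le z w
    linarith
  have h1 := hmain z hzw
  have hzb : z ∈ ball w (31 / 64 : ℝ) := by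
    rw [mem_ball_iff_norm]
    linarith
  rw [← hG z hzb]
  have h2 := Complex.abs_re_le_norm (G z - G w)
  rw [Complex.sub_re] at h2
  rw [abs_le]
  rw [abs_le] at h2
  constructor <;> linarith

/-- the core estimate -/
lemma core {F : ℂ → ℂ} {A β : ℝ} (hd : DifferentiableOn ℂ F (closedBall (0 : ℂ) 1))
    (h0 : ∀ z ∈ closedBall (0 : ℂ) (1 / 2), F z ≠ 0)
    (hA : ∀ z ∈ closedBall (0 : ℂ) 1, ‖F z‖ ≤ Real.exp A) (hβ : 0 ≤ β) (hβA : β ≤ A)
    (hA0 : 0 < A)
    (hsm : ∀ z ∈ closedBall (0 : ℂ) (3 / 128), ‖F z‖ ≤ Real.exp β) {w : ℂ}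
    (hw : ‖w‖ ≤ 1 / 64) (hFw : Real.exp (-β) ≤ ‖F w‖) {z : ℂ} (hz : ‖z‖ ≤ 1 / 16) :
    |Real.log ‖F z‖| ≤ 6 * (β ^ (1 / 4 : ℝ) * A ^ (3 / 4 : ℝ)) := by
  rcases hβ.eq_or_lt with h | h
  · subst h
    have hcont : Filter.Tendsto (fun b : ℝ => 6 * (b ^ (1 / 4 : ℝ) * A ^ (3 / 4 : ℝ)))
        (nhdsWithin 0 (Ioi 0)) (nhds (6 * ((0 : ℝ) ^ (1 / 4 : ℝ) * A ^ (3 / 4 : ℝ)))) := by
      apply Filter.Tendsto.mono_left _ nhdsWithin_le_nhds
      have : Continuous (fun b : ℝ => 6 * (b ^ (1 / 4 : ℝ) * A ^ (3 / 4 : ℝ))) := by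
        have h1 : Continuous (fun b : ℝ => b ^ (1 / 4 : ℝ)) :=
          Real.continuous_rpow_const (by norm_num)
        fun_prop
      exact this.tendsto 0
    refine ge_of_tendsto hcont ?_
    have hev : ∀ᶠ b : ℝ in nhdsWithin 0 (Ioi 0), b < A :=
      nhdsWithin_le_nhds (Iio_mem_nhds hA0)
    filter_upwards [hev, self_mem_nhdsWithin] with b hb hb0
    have hb0' : 0 < b := hb0
    refine core_pos hd h0 hA hb0' hb.le ?_ hw ?_ hz
    · intro u hu
      exact (hsm u hu).trans (Real.exp_le_exp.mpr hb0'.le)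
    · exact (Real.exp_le_exp.mpr (by linarith)).trans hFw
  · exact core_pos hd h0 hA h hβA hsm hw hFw hz

section

variable {f g : ℂ → ℂ} {U : Set ℂ} {s : Multiset ℂ}

lemma blF_le {A : ℝ} (hU : closedBall (0 : ℂ) 1 ⊆ U)
    (hf : ∀ z ∈ closedBall (0 : ℂ) 1, ‖f z‖ ≤ Real.exp A)
    (hg : Fac f g U s) {z : ℂ} (hz : z ∈ closedBall (0 : ℂ) 1) :
    ‖J3.blF g s z‖ ≤ Real.exp A := by
  have hA : 0 < Real.exp A := Real.exp_pos A
  have hg' : Fac (fun z => f z / (Real.exp A : ℂ)) (fun z => g z / (Real.exp A : ℂ)) U s := by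
    refine ⟨hg.1.div_const _, fun z hz => ?_⟩
    show f z / (Real.exp A : ℂ) = (s.map fun a => z - a).prod * (g z / (Real.exp A : ℂ))
    rw [hg.2 z hz]
    ring
  have h1 := J3.blF_le_one (f := fun z => f z / (Real.exp A : ℂ)) hU (by
    intro w hw
    rw [norm_div, Complex.norm_real, Real.norm_eq_abs, abs_of_pos hA, div_le_one hA]
    exact hf w hw) hg' hz
  have h2 : J3.blF (fun z => g z / (Real.exp A : ℂ)) s z = J3.blF g s z / (Real.exp A : ℂ) := by
    rw [J3.blF, J3.blF]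
    ring
  rw [h2, norm_div, Complex.norm_real, Real.norm_eq_abs, abs_of_pos hA, div_le_one hA] at h1
  exact h1

/-- products of distances to the roots, by comparison with real roots -/
lemma prod_ge (h1 : T1) (s : Multiset ℂ) (φ : ℂ → ℝ) {x y : ℝ} (hxy : x < y) :
    ∃ ρ ∈ Icc x y, ∀ u : ℂ, (∀ b ∈ s, |ρ - φ b| ≤ ‖u - b‖) →
      ((y - x) / 8) ^ s.card ≤ ‖(s.map fun b => u - b).prod‖ := by
  obtain ⟨ρ, hρ, h⟩ := h1 (s.map φ) x y hxy
  refine ⟨ρ, hρ, fun u hu => ?_⟩
  rw [Multiset.card_map, Multiset.map_map] at h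
  rw [J3.norm_prod]
  refine h.trans ?_
  exact (J3.prod_mono s _ _ (fun b _ => abs_nonneg _) hu).1

lemma unit_case (h1 : T1) (h2 : T2) {A a : ℝ} {N : ℕ} (hUo : IsOpen U)
    (hU : closedBall (0 : ℂ) 1 ⊆ U) (hfd : DifferentiableOn ℂ f U) (hA : 0 < A)
    (hf : ∀ z ∈ closedBall (0 : ℂ) 1, ‖f z‖ ≤ Real.exp A)
    (hN : CountLe f U (closedBall 0 (1 / 2)) N) (ha : 0 ≤ a) (haA : 20 * (a + N) ≤ A)
    (hsm : ∀ z ∈ closedBall (0 : ℂ) (1 / 32), ‖f z‖ ≤ Real.exp a)
    (hw : ∃ w ∈ closedBall (0 : ℂ) (1 / 64), Real.exp (-a) ≤ ‖f w‖) :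
    (∀ z ∈ closedBall (0 : ℂ) (1 / 16),
      ‖f z‖ ≤ Real.exp (20 * ((a + N) ^ (1 / 4 : ℝ) * A ^ (3 / 4 : ℝ)))) ∧
    (∀ y ∈ closedBall (0 : ℂ) (1 / 32), ∃ w ∈ closedBall y (1 / 64),
      Real.exp (-(20 * ((a + N) ^ (1 / 4 : ℝ) * A ^ (3 / 4 : ℝ)))) ≤ ‖f w‖) := by
  have hK : closedBall (0 : ℂ) (1 / 2) ⊆ U :=
    (closedBall_subset_closedBall (by norm_num)).trans hU
  obtain ⟨s, g, hg, hs, hg0⟩ := h2 f U _ N hUo hK hfd hN
  have hcard : s.card ≤ N := hN s g hg hs
  have hcardR : (s.card : ℝ) ≤ N := by exact_mod_cast hcard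
  have hN0 : (0 : ℝ) ≤ N := Nat.cast_nonneg _
  have hFd : DifferentiableOn ℂ (J3.blF g s) (closedBall (0 : ℂ) 1) :=
    (hg.1.mono hU).mul (J3.diff_prod s).differentiableOn
  have hF0 : ∀ u ∈ closedBall (0 : ℂ) (1 / 2), J3.blF g s u ≠ 0 := by
    intro u hu2
    refine mul_ne_zero (hg0 u hu2) ?_
    rw [mem_closedBall_zero_iff] at hu2
    intro h
    rw [Multiset.prod_eq_zero_iff, Multiset.mem_map] at h
    obtain ⟨a, ha, h⟩ := h
    have ha' : ‖a‖ ≤ 1 / 2 := by simpa using hs a ha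
    have h3 := (J3.norm_lower hu2 ha' (by norm_num)).1
    rw [h, norm_zero] at h3
    norm_num at h3
  have hFA : ∀ z ∈ closedBall (0 : ℂ) 1, ‖J3.blF g s z‖ ≤ Real.exp A := fun z hz =>
    blF_le hU hf hg hz
  have hle : ∀ z : ℂ, ‖z‖ ≤ 1 / 8 → ‖f z‖ ≤ ‖J3.blF g s z‖ := by
    intro z hz
    refine (J3.f_le_blF hU hg hs hz).trans ?_
    have h5 : (2 / 3 : ℝ) ^ s.card ≤ 1 := pow_le_one₀ (by norm_num) (by norm_num)
    have := mul_le_mul_of_nonneg_right h5 (norm_nonneg (J3.blF g s z))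
    linarith
  -- a small circle
  have hexp7 : (1040 : ℝ) ≤ Real.exp 7 := by
    have h3 := Real.exp_one_gt_d9
    have h4 : Real.exp 7 = Real.exp 1 ^ 7 := by
      rw [← Real.exp_nat_mul]
      norm_num
    rw [h4]
    calc (1040 : ℝ) ≤ 2.7182818283 ^ 7 := by norm_num
      _ ≤ _ := pow_le_pow_left₀ (by norm_num) h3.le 7
  obtain ⟨ρ, ⟨hρ1, hρ2⟩, hρ⟩ := prod_ge h1 s (fun b => ‖b‖)
    (show (3 / 128 : ℝ) < 1 / 32 by norm_num)
  have hsph : ∀ z : ℂ, ‖z‖ = ρ → ‖J3.blF g s z‖ ≤ Real.exp (a + 7 * N) := by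
    intro z hz
    have h3 := hρ z (fun b _ => by
      rw [← hz]
      exact abs_norm_sub_norm_le z b)
    have hz8 : ‖z‖ ≤ 1 / 32 := by rw [hz]; exact hρ2
    have hzU : z ∈ U := hU (by rw [mem_closedBall_zero_iff]; linarith)
    have h4 : ‖(s.map fun b => 1 - (starRingEnd ℂ) b * z).prod‖ ≤ (65 / 64 : ℝ) ^ s.card := by
      rw [J3.norm_prod]
      refine J3.prod_le_pow s _ _ (fun _ _ => norm_nonneg _) ?_
      intro b hb
      have hb' : ‖b‖ ≤ 1 / 2 := by simpa using hs b hb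
      have h3 := (J3.norm_lower hz8 hb' (by norm_num)).2
      linarith
    have h5 := hsm z (by rw [mem_closedBall_zero_iff]; exact hz8)
    rw [hg.2 z hzU, norm_mul] at h5
    rw [show ((1 / 32 : ℝ) - 3 / 128) / 8 = 1 / 1024 by norm_num] at h3
    have h6 : (1 / 1024 : ℝ) ^ s.card * ‖g z‖ ≤ Real.exp a :=
      (mul_le_mul_of_nonneg_right h3 (norm_nonneg _)).trans h5
    have h7 : ‖g z‖ ≤ 1024 ^ s.card * Real.exp a := by
      have h8 : (1024 : ℝ) ^ s.card * (1 / 1024) ^ s.card = 1 := by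
        rw [← mul_pow]
        norm_num
      calc ‖g z‖ = 1024 ^ s.card * ((1 / 1024 : ℝ) ^ s.card * ‖g z‖) := by
            rw [← mul_assoc, h8, one_mul]
        _ ≤ _ := mul_le_mul_of_nonneg_left h6 (by positivity)
    rw [J3.blF, norm_mul]
    calc ‖g z‖ * ‖(s.map fun b => 1 - (starRingEnd ℂ) b * z).prod‖
        ≤ (1024 ^ s.card * Real.exp a) * (65 / 64 : ℝ) ^ s.card :=
          mul_le_mul h7 h4 (norm_nonneg _) (by positivity)
      _ = 1040 ^ s.card * Real.exp a := by
          rw [mul_right_comm, ← mul_pow]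
          norm_num
      _ ≤ Real.exp 7 ^ N * Real.exp a := by
          apply mul_le_mul_of_nonneg_right _ (Real.exp_pos a).le
          calc (1040 : ℝ) ^ s.card ≤ 1040 ^ N := pow_le_pow_right₀ (by norm_num) hcard
            _ ≤ _ := pow_le_pow_left₀ (by norm_num) hexp7 N
      _ = Real.exp (a + 7 * N) := by
          rw [← Real.exp_nat_mul, ← Real.exp_add]
          congr 1
          ring
  have hsmF : ∀ z ∈ closedBall (0 : ℂ) (3 / 128), ‖J3.blF g s z‖ ≤ Real.exp (a + 7 * N) := by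
    intro z hz
    have hρ0 : ρ ≠ 0 := by
      intro h
      rw [h] at hρ1
      norm_num at hρ1
    have hdc : DiffContOnCl ℂ (J3.blF g s) (ball (0 : ℂ) ρ) := by
      apply DifferentiableOn.diffContOnCl
      rw [closure_ball (0 : ℂ) hρ0]
      exact hFd.mono (closedBall_subset_closedBall (by linarith))
    refine Complex.norm_le_of_forall_mem_frontier_norm_le isBounded_ball hdc ?_ ?_
    · intro w hw
      rw [frontier_ball (0 : ℂ) hρ0, mem_sphere_zero_iff_norm] at hw
      exact hsph w hw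
    · rw [closure_ball (0 : ℂ) hρ0]
      exact closedBall_subset_closedBall hρ1 hz
  obtain ⟨w, hw, hfw⟩ := hw
  rw [mem_closedBall_zero_iff] at hw
  have hFw : Real.exp (-(a + 7 * N)) ≤ ‖J3.blF g s w‖ :=
    (Real.exp_le_exp.mpr (by linarith)).trans (hfw.trans (hle w (by linarith)))
  have hcore : ∀ z : ℂ, ‖z‖ ≤ 1 / 16 →
      |Real.log ‖J3.blF g s z‖| ≤ 12 * ((a + N) ^ (1 / 4 : ℝ) * A ^ (3 / 4 : ℝ)) := by
    intro z hz
    refine (core hFd hF0 hFA (by positivity) (by linarith) hA hsmF hw hFw hz).trans ?_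
    have e1 : (a + 7 * N) ^ (1 / 4 : ℝ) ≤ 2 * (a + N) ^ (1 / 4 : ℝ) := by
      have e2 : (16 * (a + N)) ^ (1 / 4 : ℝ) = 2 * (a + N) ^ (1 / 4 : ℝ) := by
        rw [Real.mul_rpow (by norm_num) (by positivity)]
        congr 1
        rw [show (16 : ℝ) = 2 ^ (4 : ℝ) by norm_num, ← Real.rpow_mul (by norm_num)]
        norm_num
      rw [← e2]
      exact Real.rpow_le_rpow (by positivity) (by linarith) (by norm_num)
    have e3 : 0 ≤ A ^ (3 / 4 : ℝ) := Real.rpow_nonneg hA.le _
    have e4 := mul_le_mul_of_nonneg_right e1 e3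
    linarith
  have hP0 : 0 ≤ (a + N) ^ (1 / 4 : ℝ) * A ^ (3 / 4 : ℝ) := by positivity
  have hNP : (N : ℝ) ≤ (a + N) ^ (1 / 4 : ℝ) * A ^ (3 / 4 : ℝ) := by
    rcases eq_or_lt_of_le (show 0 ≤ a + (N : ℝ) by positivity) with h | h
    · have : (N : ℝ) ≤ 0 := by linarith
      exact this.trans hP0
    · have e1 : a + N = (a + N) ^ (1 / 4 : ℝ) * (a + N) ^ (3 / 4 : ℝ) := by
        rw [← Real.rpow_add h]
        norm_num
      calc (N : ℝ) ≤ a + N := by linarith
        _ = (a + N) ^ (1 / 4 : ℝ) * (a + N) ^ (3 / 4 : ℝ) := e1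
        _ ≤ _ := mul_le_mul_of_nonneg_left
            (Real.rpow_le_rpow h.le (by linarith) (by norm_num)) (by positivity)
  constructor
  · intro z hz
    rw [mem_closedBall_zero_iff] at hz
    have hFz : 0 < ‖J3.blF g s z‖ :=
      norm_pos_iff.mpr (hF0 z (by rw [mem_closedBall_zero_iff]; linarith))
    refine (hle z (by linarith)).trans ?_
    rw [← Real.log_le_iff_le_exp hFz]
    have h3 := hcore z hz
    rw [abs_le] at h3
    linarith [h3.2]
  · intro y hy
    rw [mem_closedBall_zero_iff] at hy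
    obtain ⟨r, ⟨hr1, hr2⟩, hr⟩ := prod_ge h1 s (fun b => (b - y).re)
      (show (-(1 / 64) : ℝ) < 1 / 64 by norm_num)
    have hrn : ‖(r : ℂ)‖ ≤ 1 / 64 := by
      rw [Complex.norm_real, Real.norm_eq_abs, abs_le]
      exact ⟨hr1, hr2⟩
    refine ⟨y + r, by rw [mem_closedBall_iff_norm, add_sub_cancel_left]; exact hrn, ?_⟩
    have h3 := hr (y + r) (fun b _ => by
      have h4 := Complex.abs_re_le_norm (y + r - b)
      have h5 : (y + r - b : ℂ).re = r - (b - y).re := by
        simp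
        ring
      rw [h5] at h4
      exact h4)
    set u : ℂ := y + r with hu
    have hun : ‖u‖ ≤ 1 / 16 := by
      have := norm_add_le y (r : ℂ)
      linarith
    have huU : u ∈ U := hU (by rw [mem_closedBall_zero_iff]; linarith)
    have hFu : 0 < ‖J3.blF g s u‖ :=
      norm_pos_iff.mpr (hF0 u (by rw [mem_closedBall_zero_iff]; linarith))
    have h4 : ‖(s.map fun b => 1 - (starRingEnd ℂ) b * u).prod‖ ≤ (2 : ℝ) ^ s.card := by
      rw [J3.norm_prod]
      refine J3.prod_le_pow s _ _ (fun _ _ => norm_nonneg _) ?_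
      intro b hb
      have hb' : ‖b‖ ≤ 1 / 2 := by simpa using hs b hb
      have h3 := (J3.norm_lower hun hb' (by norm_num)).2
      linarith
    rw [show ((1 / 64 : ℝ) - -(1 / 64)) / 8 = 1 / 256 by norm_num] at h3
    have h5 : (1 / 256 : ℝ) ^ s.card * ‖J3.blF g s u‖ ≤ ‖f u‖ * 2 ^ s.card := by
      rw [hg.2 u huU, J3.blF, norm_mul, norm_mul]
      calc (1 / 256 : ℝ) ^ s.card *
            (‖g u‖ * ‖(s.map fun b => 1 - (starRingEnd ℂ) b * u).prod‖)
          ≤ ‖(s.map fun b => u - b).prod‖ * (‖g u‖ * 2 ^ s.card) :=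
            mul_le_mul h3 (mul_le_mul_of_nonneg_left h4 (norm_nonneg _))
              (mul_nonneg (norm_nonneg _) (norm_nonneg _)) (norm_nonneg _)
        _ = _ := by ring
    have h6 : (1 / 512 : ℝ) ^ s.card * ‖J3.blF g s u‖ ≤ ‖f u‖ := by
      have h7 : (0 : ℝ) < 2 ^ s.card := by positivity
      have h8 : (1 / 256 : ℝ) ^ s.card = (1 / 512) ^ s.card * 2 ^ s.card := by
        rw [← mul_pow]
        norm_num
      rw [h8, mul_right_comm] at h5
      exact le_of_mul_le_mul_right h5 h7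
    refine le_trans ?_ h6
    have h9 : Real.exp (-(7 * N)) ≤ (1 / 512 : ℝ) ^ s.card := by
      have h10 : (1 / 512 : ℝ) ^ N ≤ (1 / 512 : ℝ) ^ s.card :=
        pow_le_pow_of_le_one (by norm_num) (by norm_num) hcard
      refine le_trans ?_ h10
      have h11 : Real.exp (-(7 * N)) = (Real.exp (-7)) ^ N := by
        rw [← Real.exp_nat_mul]
        congr 1
        ring
      rw [h11]
      apply pow_le_pow_left₀ (Real.exp_pos _).le
      rw [Real.exp_neg, one_div]
      exact inv_anti₀ (by norm_num) (by linarith)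
    have h12 := hcore u hun
    rw [abs_le] at h12
    have h13 : Real.exp (-(12 * ((a + N) ^ (1 / 4 : ℝ) * A ^ (3 / 4 : ℝ)))) ≤
        ‖J3.blF g s u‖ := by
      rw [← Real.le_log_iff_exp_le hFu]
      exact h12.1
    calc Real.exp (-(20 * ((a + N) ^ (1 / 4 : ℝ) * A ^ (3 / 4 : ℝ))))
        ≤ Real.exp (-(7 * N)) * Real.exp (-(12 * ((a + N) ^ (1 / 4 : ℝ) * A ^ (3 / 4 : ℝ)))) := by
          rw [← Real.exp_add]
          apply Real.exp_le_exp.mpr
          linarith
      _ ≤ _ := mul_le_mul h9 h13 (Real.exp_pos _).le (by positivity)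

end

end J4

open J4 in
/-- T4, given T1 and T2. -/
theorem t4_of (h1 : T1) (h2 : T2) : T4 := by
  refine ⟨20, by norm_num, ?_⟩
  intro f U x R A a N hR hUo hU hfd hA hf hN ha haA hsm hw
  have hRC : (R : ℂ) ≠ 0 := by exact_mod_cast hR.ne'
  -- scaling
  have hsc : ∀ (r : ℝ) (y w : ℂ), w ∈ closedBall y r ↔
      x + R * w ∈ closedBall (x + R * y) (R * r) := by
    intro r y w
    rw [mem_closedBall_iff_norm, mem_closedBall_iff_norm]
    have h3 : x + R * w - (x + R * y) = R * (w - y) := by ring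
    rw [h3, norm_mul, Complex.norm_real, Real.norm_eq_abs, abs_of_pos hR]
    exact (mul_le_mul_iff_right₀ hR).symm
  have hsc0 : ∀ (r : ℝ) (w : ℂ), w ∈ closedBall (0 : ℂ) r ↔ x + R * w ∈ closedBall x (R * r) := by
    intro r w
    have := hsc r 0 w
    rwa [mul_zero, add_zero] at this
  have hinv : ∀ z : ℂ, x + R * ((z - x) / R) = z := by
    intro z
    field_simp
    ring
  have hcont : Continuous (fun w : ℂ => x + R * w) := by fun_prop
  obtain ⟨w, hw, hfw⟩ := hw
  have key := unit_case h1 h2 (f := fun w => f (x + R * w))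
    (U := (fun w : ℂ => x + R * w) ⁻¹' U) (A := A) (a := a) (N := N) (hUo.preimage hcont)
    (by
      intro w hw
      have := (hsc0 1 w).1 hw
      rw [mul_one] at this
      exact hU this)
    (hfd.comp (by fun_prop) (fun w hw => hw)) hA
    (by
      intro w hw
      have := (hsc0 1 w).1 hw
      rw [mul_one] at this
      exact hf _ this)
    (by
      intro s g hg hs
      have h3 := hN (s.map fun b => x + R * b)
        (fun z => (R : ℂ)⁻¹ ^ s.card * g ((z - x) / R)) ?_ ?_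
      · rwa [Multiset.card_map] at h3
      · constructor
        · apply DifferentiableOn.const_mul
          refine hg.1.comp (by fun_prop) ?_
          intro z hz
          show x + R * ((z - x) / R) ∈ U
          rw [hinv]
          exact hz
        · intro z hz
          have h4 := hg.2 ((z - x) / R) (by
            show x + R * ((z - x) / R) ∈ U
            rw [hinv]
            exact hz)
          simp only [hinv] at h4
          rw [h4, Multiset.map_map]
          have h5 : (s.map ((fun a => z - a) ∘ fun b => x + R * b)).prod =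
              (R : ℂ) ^ s.card * (s.map fun a => (z - x) / R - a).prod := by
            have h2 : (s.map ((fun a => z - a) ∘ fun b => x + R * b)) =
                s.map fun a => (R : ℂ) * ((z - x) / R - a) := by
              apply Multiset.map_congr rfl
              intro a _
              simp only [Function.comp_apply]
              field_simp
              ring
            rw [h2, Multiset.prod_map_mul]
            simp
          rw [h5]
          have h6 : (R : ℂ) ^ s.card * (R : ℂ)⁻¹ ^ s.card = 1 := by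
            rw [← mul_pow, mul_inv_cancel₀ hRC, one_pow]
          linear_combination (-(s.map fun a => (z - x) / R - a).prod * g ((z - x) / R)) * h6
      · intro b hb
        rw [Multiset.mem_map] at hb
        obtain ⟨c, hc, rfl⟩ := hb
        have := (hsc0 (1 / 2) c).1 (hs c hc)
        rwa [mul_one_div] at this) ha haA
    (by
      intro w hw
      have := (hsc0 (1 / 32) w).1 hw
      rw [mul_one_div] at this
      exact hsm _ this)
    ⟨(w - x) / R, by rw [hsc0, hinv, mul_one_div]; exact hw, by simp only [hinv]; exact hfw⟩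
  constructor
  · intro z hz
    have h3 := key.1 ((z - x) / R) (by rw [hsc0, hinv, mul_one_div]; exact hz)
    simp only [hinv] at h3
    exact h3
  · intro y hy
    obtain ⟨v, hv, hfv⟩ := key.2 ((y - x) / R) (by rw [hsc0, hinv, mul_one_div]; exact hy)
    refine ⟨x + R * v, ?_, hfv⟩
    have := (hsc (1 / 64) ((y - x) / R) v).1 hv
    rwa [hinv, mul_one_div] at this

/-- T4. -/
theorem t4 : T4 := t4_of t1 t2

end Pool.Agent.LHW
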