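import Pool.Agent.LHW.Targets

set_option autoImplicit false

/-!
# T5: growth along a connected set
-/

namespace Pool.Agent.LHW

open Complex Metric Set

/-- a rectangle is covered by finitely many small discs -/
lemma T5.cover (W H h : ℝ) (hh : 0 < h) :
    ∃ F : Finset ℂ, ∀ z : ℂ, |z.re| ≤ W → |z.im| ≤ H → ∃ c ∈ F, dist z c < h / 4 := by
  obtain ⟨t, -, hfin, hcov⟩ := (isCompact_closedBall (0 : ℂ) (|W| + |H|)).finite_cover_balls
    (e := h / 4) (by positivity)
  refine ⟨hfin.toFinset, fun z h1 h2 => ?_⟩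
  have hz : z ∈ closedBall (0 : ℂ) (|W| + |H|) := by
    rw [mem_closedBall, dist_zero_right]
    have := Complex.norm_le_abs_re_add_abs_im z
    have := le_abs_self W
    have := le_abs_self H
    linarith
  have hz' := hcov hz
  simp only [mem_iUnion, mem_ball, exists_prop] at hz'
  obtain ⟨c, hc, hd⟩ := hz'
  exact ⟨c, hfin.mem_toFinset.2 hc, hd⟩

theorem t5 : T5 := by
  classical
  intro W H h hh
  obtain ⟨F, hF⟩ := T5.cover W H h hh
  refine ⟨F.card, fun S x G hS hbox hmono hp hstep => ?_⟩
  obtain ⟨p, hpS, hp0⟩ := hp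
  let I : ℕ → Finset ℂ := fun k => F.filter fun c => ∃ z ∈ S, z ∈ G k ∧ dist (z - x) c < h / 4
  have hmemI : ∀ k c, c ∈ I k ↔ c ∈ F ∧ ∃ z ∈ S, z ∈ G k ∧ dist (z - x) c < h / 4 :=
    fun k c => Finset.mem_filter
  have hcell : ∀ z ∈ S, ∃ c ∈ F, dist (z - x) c < h / 4 := by
    intro z hz
    obtain ⟨h1, h2⟩ := hbox z hz
    exact hF (z - x) (by rwa [Complex.sub_re]) (by rwa [Complex.sub_im])
  have hG : ∀ j k, j ≤ k → G j ⊆ G k := by
    intro j k hjk
    induction hjk with
    | refl => exact subset_rfl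
    | step _ ih => exact ih.trans (hmono _)
  have hI : ∀ k, I k ⊆ I (k + 1) := by
    intro k c hc
    rw [hmemI] at hc ⊢
    obtain ⟨h1, z, h2, h3, h4⟩ := hc
    exact ⟨h1, z, h2, hmono k h3, h4⟩
  have key : ∃ k, k < F.card ∧ I k = I (k + 1) := by
    by_contra hne
    push Not at hne
    have hcard : ∀ k, k ≤ F.card → k + 1 ≤ (I k).card := by
      intro k
      induction k with
      | zero =>
        intro _
        obtain ⟨c, hc, hd⟩ := hcell p hpS
        exact Finset.card_pos.2 ⟨c, (hmemI 0 c).2 ⟨hc, p, hpS, hp0, hd⟩⟩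
      | succ k ih =>
        intro hk
        have h1 := ih (by omega)
        have h2 := Finset.card_lt_card ((hI k).ssubset_of_ne (hne k (by omega)))
        omega
    have h1 := hcard F.card le_rfl
    have h2 : (I F.card).card ≤ F.card := Finset.card_le_card (Finset.filter_subset _ _)
    omega
  obtain ⟨k, hk, hIk⟩ := key
  have hnear : ∀ c ∈ I k, ∀ z ∈ S, dist (z - x) c < h / 2 → z ∈ G (k + 1) := by
    intro c hc z hz hd
    obtain ⟨-, q, hqS, hqG, hqd⟩ := (hmemI k c).1 hc
    refine hstep k hk q hqS hqG z hz ?_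
    have h1 : dist q z = dist (q - x) (z - x) := (dist_sub_right q z x).symm
    rw [h1]
    have h2 := dist_triangle_right (q - x) (z - x) c
    linarith
  have hsub : S ⊆ ⋃ c ∈ I k, ball (c + x) (h / 4) := by
    refine hS.subset_of_closure_inter_subset (isOpen_biUnion fun c _ => isOpen_ball) ?_ ?_
    · obtain ⟨c, hc, hd⟩ := hcell p hpS
      refine ⟨p, hpS, ?_⟩
      have h1 : c ∈ I k := (hmemI k c).2 ⟨hc, p, hpS, hG 0 k (Nat.zero_le k) hp0, hd⟩
      refine mem_biUnion (x := c) h1 ?_
      rw [mem_ball]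
      have : dist p (c + x) = dist (p - x) c := by
        rw [dist_eq_norm, dist_eq_norm]
        congr 1
        ring
      rw [this]
      exact hd
    · rintro z ⟨hz, hzS⟩
      rw [Metric.mem_closure_iff] at hz
      obtain ⟨y, hy, hyd⟩ := hz (h / 4) (by positivity)
      simp only [mem_iUnion, exists_prop] at hy
      obtain ⟨c, hc, hyc⟩ := hy
      have h1 : dist (z - x) c < h / 2 := by
        have e1 : dist (z - x) c = dist z (c + x) := by
          rw [dist_eq_norm, dist_eq_norm]
          congr 1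
          ring
        rw [e1]
        have h2 := dist_triangle z y (c + x)
        rw [mem_ball] at hyc
        linarith
      have h2 : z ∈ G (k + 1) := hnear c hc z hzS h1
      obtain ⟨c', hc', hd'⟩ := hcell z hzS
      have h3 : c' ∈ I k := by
        rw [hIk]
        exact (hmemI (k + 1) c').2 ⟨hc', z, hzS, h2, hd'⟩
      refine mem_biUnion (x := c') h3 ?_
      rw [mem_ball]
      have : dist z (c' + x) = dist (z - x) c' := by
        rw [dist_eq_norm, dist_eq_norm]
        congr 1
        ring
      rw [this]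
      exact hd'
  intro z hz
  have hz' := hsub hz
  simp only [mem_iUnion, exists_prop] at hz'
  obtain ⟨c, hc, hzc⟩ := hz'
  refine hG (k + 1) F.card hk (hnear c hc z hz ?_)
  have e1 : dist (z - x) c = dist z (c + x) := by
    rw [dist_eq_norm, dist_eq_norm]
    congr 1
    ring
  rw [e1]
  rw [mem_ball] at hzc
  linarith

end Pool.Agent.LHW
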