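import Pool.Agent.LHW.Targets

/-!
# T10: a lower bound of zeta on the line `Re s = 2`
-/

namespace Pool.Agent.LHW

open Complex Metric Set

namespace J10

theorem norm_term (t : ℝ) (n : ℕ) :
    ‖(1 : ℂ) / ((n : ℂ) + 1) ^ (2 + (t : ℂ) * I)‖ = 1 / ((n : ℝ) + 1) ^ 2 := by
  have h1 : ((n : ℂ) + 1) = (((n : ℝ) + 1 : ℝ) : ℂ) := by push_cast; ring
  have hpos : (0 : ℝ) < (n : ℝ) + 1 := by positivity
  rw [norm_div, norm_one, h1, Complex.norm_cpow_eq_rpow_re_of_pos hpos]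
  have h2 : (2 + (t : ℂ) * I).re = 2 := by simp
  rw [h2]
  norm_num

theorem hasSum_tail : HasSum (fun n : ℕ => (1 : ℝ) / ((n : ℝ) + 1 + 1) ^ 2)
    (Real.pi ^ 2 / 6 - 1) := by
  have h := hasSum_zeta_two
  have h2 := (hasSum_nat_add_iff' 2).2 h
  have e : (∑ i ∈ Finset.range 2, (1 : ℝ) / (i : ℝ) ^ 2) = 1 := by
    rw [Finset.sum_range_succ, Finset.sum_range_succ, Finset.sum_range_zero]
    norm_num
  rw [e] at h2
  refine h2.congr_fun ?_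
  intro n
  push_cast
  ring_nf

end J10

theorem t10 : T10 := by
  intro t
  have hs : (1 : ℝ) < (2 + (t : ℂ) * I).re := by simp
  rw [zeta_eq_tsum_one_div_nat_add_one_cpow hs]
  have hsum0 : Summable (fun n : ℕ => ‖(1 : ℂ) / ((n : ℂ) + 1) ^ (2 + (t : ℂ) * I)‖) := by
    have : (fun n : ℕ => ‖(1 : ℂ) / ((n : ℂ) + 1) ^ (2 + (t : ℂ) * I)‖) =
        fun n : ℕ => (1 : ℝ) / ((n : ℝ) + 1) ^ 2 := by
      funext n; exact J10.norm_term t n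
    rw [this]
    have h := (summable_nat_add_iff 1).2 hasSum_zeta_two.summable
    refine h.congr ?_
    intro n
    push_cast
    rfl
  have hsum := hsum0.of_norm
  rw [hsum.tsum_eq_zero_add]
  have h0 : (1 : ℂ) / (((0 : ℕ) : ℂ) + 1) ^ (2 + (t : ℂ) * I) = 1 := by simp
  rw [h0]
  have hsum1 : Summable (fun n : ℕ => ‖(1 : ℂ) / (((n + 1 : ℕ) : ℂ) + 1) ^ (2 + (t : ℂ) * I)‖) :=
    (summable_nat_add_iff 1).2 hsum0
  have hb : ‖∑' n : ℕ, (1 : ℂ) / (((n + 1 : ℕ) : ℂ) + 1) ^ (2 + (t : ℂ) * I)‖ ≤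
      Real.pi ^ 2 / 6 - 1 := by
    refine (norm_tsum_le_tsum_norm hsum1).trans ?_
    have : (fun n : ℕ => ‖(1 : ℂ) / (((n + 1 : ℕ) : ℂ) + 1) ^ (2 + (t : ℂ) * I)‖) =
        fun n : ℕ => (1 : ℝ) / ((n : ℝ) + 1 + 1) ^ 2 := by
      funext n
      rw [J10.norm_term t (n + 1)]
      push_cast
      rfl
    rw [this, J10.hasSum_tail.tsum_eq]
  have hpi : Real.pi ^ 2 / 6 - 1 ≤ 3 / 4 := by
    have h1 := Real.pi_lt_d2
    have h2 := Real.pi_pos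
    nlinarith
  have htri := norm_sub_norm_le (1 : ℂ)
    (-∑' n : ℕ, (1 : ℂ) / (((n + 1 : ℕ) : ℂ) + 1) ^ (2 + (t : ℂ) * I))
  rw [norm_neg, sub_neg_eq_add, norm_one] at htri
  linarith

end Pool.Agent.LHW
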