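import Pool.Agent.LHW.Targets

set_option autoImplicit false

/-!
# The Chebyshev constant of an interval
-/

namespace Pool.Agent.LHW

open Polynomial

theorem t1 : T1 := by
  intro s x y hxy
  by_contra hcon
  push Not at hcon
  set h : ℝ := (y - x) / 2 with hh
  set m : ℝ := (x + y) / 2 with hm
  have hpos : 0 < h := by rw [hh]; linarith
  set t : Multiset ℝ := s.map fun b => (b - m) / h with ht
  have hcard : t.card = s.card := by rw [ht, Multiset.card_map]
  have hQm : ((t.map fun a => (X - C a : ℝ[X])).prod).Monic :=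
    monic_multisetProd_X_sub_C t
  have hQd : ((t.map fun a => (X - C a : ℝ[X])).prod).natDegree = s.card := by
    rw [natDegree_multiset_prod_X_sub_C_eq_card, hcard]
  set Q : ℝ[X] := (t.map fun a => (X - C a : ℝ[X])).prod with hQ
  have heval : ∀ u : ℝ, h ^ s.card * |Q.eval u| = (s.map fun b => |m + h * u - b|).prod := by
    intro u
    have h1 : Q.eval u = (s.map fun b => u - (b - m) / h).prod := by
      rw [hQ, ht, eval_multiset_prod, Multiset.map_map, Multiset.map_map]
      simp
    rw [h1]
    have h2 : |(s.map fun b => u - (b - m) / h).prod| = (s.map fun b => |u - (b - m) / h|).prod := by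
      have h3 := map_multiset_prod (absHom : ℝ →*₀ ℝ) (s.map fun b => u - (b - m) / h)
      rw [Multiset.map_map] at h3
      exact h3
    rw [h2, ← Multiset.card_map (fun b => |u - (b - m) / h|) s]
    have h4 : ∀ r : Multiset ℝ, h ^ r.card * r.prod = (r.map fun b => h * b).prod := by
      intro r
      rw [Multiset.prod_map_mul, Multiset.map_const', Multiset.prod_replicate, Multiset.map_id']
    rw [h4, Multiset.map_map]
    refine congrArg Multiset.prod (Multiset.map_congr rfl fun b _ => ?_)
    show h * |u - (b - m) / h| = |m + h * u - b|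
    have h5 : m + h * u - b = h * (u - (b - m) / h) := by
      field_simp
      ring
    rw [h5, abs_mul, abs_of_pos hpos]
  have hbd : ∀ u ∈ Set.Icc (-1 : ℝ) 1, |(C ((4 : ℝ) ^ s.card) * Q).eval u| ≤ 1 := by
    intro u hu
    have h1 := hcon (m + h * u) ⟨by rw [hm, hh] at *; nlinarith [hu.1, hu.2],
      by rw [hm, hh] at *; nlinarith [hu.1, hu.2]⟩
    rw [← heval u] at h1
    have h2 : (y - x) / 8 = h / 4 := by rw [hh]; ring
    rw [h2, div_pow h 4] at h1
    rw [eval_mul, eval_C, abs_mul, abs_of_pos (by positivity : (0 : ℝ) < 4 ^ s.card)]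
    have h3 : 0 < h ^ s.card := by positivity
    have h4 : (0 : ℝ) < 4 ^ s.card := by positivity
    have h5 : h ^ s.card * |Q.eval u| < h ^ s.card * (1 / 4 ^ s.card) := by
      rw [mul_one_div]
      exact h1
    have h6 := lt_of_mul_lt_mul_left h5 h3.le
    rw [lt_div_iff₀ h4] at h6
    linarith
  have hdeg : (C ((4 : ℝ) ^ s.card) * Q).degree ≤ (s.card : ℕ) := by
    refine natDegree_le_iff_degree_le.mp ?_
    refine (natDegree_C_mul_le _ _).trans ?_
    rw [hQd]
  have hc := Polynomial.Chebyshev.coeff_le_of_forall_abs_le_one hdeg hbd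
  rw [coeff_C_mul] at hc
  have h1 : Q.coeff s.card = 1 := by
    rw [← hQd]
    exact hQm
  rw [h1, mul_one] at hc
  have h2 : (2 : ℝ) ^ (s.card - 1) ≤ 2 ^ s.card := pow_le_pow_right₀ (by norm_num) (Nat.sub_le _ _)
  have h3 : (2 : ℝ) ^ s.card ≤ 4 ^ s.card := pow_le_pow_left₀ (by norm_num) (by norm_num) _
  rcases Nat.eq_zero_or_pos s.card with h0 | h0
  · have hs : s = 0 := Multiset.card_eq_zero.mp h0
    have h4 := hcon x ⟨le_refl _, hxy.le⟩
    rw [hs] at h4
    simp at h4
  · have h4 : (2 : ℝ) ^ s.card < 4 ^ s.card :=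
      pow_lt_pow_left₀ (by norm_num) (by norm_num) (by omega)
    linarith

end Pool.Agent.LHW
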