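import Pool.Agent.LHW.Targets

/-!
# T6: zeros counted by the divisor bound the number of zeros that can be split off
-/

namespace Pool.Agent.LHW

open Complex Metric Set

/-- `ζ` is analytic away from `1`. -/
lemma J6.analytic : AnalyticOnNhd ℂ riemannZeta {(1 : ℂ)}ᶜ := by
  have h : DifferentiableOn ℂ riemannZeta {(1 : ℂ)}ᶜ := fun z hz =>
    (differentiableAt_riemannZeta (by simpa using hz)).differentiableWithinAt
  exact h.analyticOnNhd isOpen_compl_singleton

/-- `ζ` has finite order at each point other than `1`. -/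
lemma J6.order_ne_top {a : ℂ} (ha : a ≠ 1) : analyticOrderAt riemannZeta a ≠ ⊤ := by
  intro h
  rw [analyticOrderAt_eq_top] at h
  have hc : IsPreconnected ({(1 : ℂ)}ᶜ : Set ℂ) := by
    refine (isConnected_compl_singleton_of_one_lt_rank ?_ 1).isPreconnected
    rw [Complex.rank_real_complex]
    exact_mod_cast Nat.one_lt_two
  have h2 := J6.analytic.eqOn_zero_of_preconnected_of_eventuallyEq_zero hc
    (show a ∈ ({(1 : ℂ)}ᶜ : Set ℂ) by simpa using ha) h
  have h3 : riemannZeta 2 = 0 := h2 (show (2 : ℂ) ∈ ({(1 : ℂ)}ᶜ : Set ℂ) by simp)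
  exact riemannZeta_ne_zero_of_one_lt_re (s := 2) (by simp) h3

lemma J6.diff_prod (t : Multiset ℂ) :
    Differentiable ℂ (fun z : ℂ => (t.map fun a => z - a).prod) := by
  induction t using Multiset.induction_on with
  | empty => simp
  | cons b t ih =>
    have : (fun z : ℂ => ((b ::ₘ t).map fun a => z - a).prod) =
        fun z => (z - b) * (t.map fun a => z - a).prod := by
      funext z; simp
    rw [this]
    exact (differentiable_id.sub_const b).mul ih

/-- the multiplicity of a split-off zero is at most the order -/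
lemma J6.count_le {g : ℂ → ℂ} {U : Set ℂ} {s : Multiset ℂ} (hU : IsOpen U) (h1 : (1 : ℂ) ∉ U)
    (hF : Fac riemannZeta g U s) {a : ℂ} (ha : a ∈ U) :
    (s.count a : ℕ∞) ≤ analyticOrderAt riemannZeta a := by
  have ha1 : a ≠ 1 := fun h => h1 (h ▸ ha)
  have hana : AnalyticAt ℂ riemannZeta a := J6.analytic a (by simpa using ha1)
  rw [natCast_le_analyticOrderAt hana]
  refine ⟨fun z => ((s.filter fun b => ¬ b = a).map fun b => z - b).prod * g z, ?_, ?_⟩
  · have hd : DifferentiableOn ℂ (fun z => ((s.filter fun b => ¬ b = a).map fun b => z - b).prod *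
        g z) U := (J6.diff_prod _).differentiableOn.mul hF.1
    exact hd.analyticAt (hU.mem_nhds ha)
  · filter_upwards [hU.mem_nhds ha] with z hz
    rw [hF.2 z hz]
    conv_lhs => rw [← Multiset.filter_add_not (fun b => b = a) s]
    rw [Multiset.map_add, Multiset.prod_add, Multiset.filter_eq', Multiset.map_replicate,
      Multiset.prod_replicate, smul_eq_mul, mul_assoc]

theorem t6 : T6 := by
  intro x ρ N U hU hsub h1 hN s g hF hs
  have hana : AnalyticOnNhd ℂ riemannZeta (closedBall x ρ) := by
    intro z hz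
    refine J6.analytic z ?_
    have : z ≠ 1 := fun h => h1 (h ▸ hsub hz)
    simpa using this
  set D := MeromorphicOn.divisor riemannZeta (closedBall x ρ) with hD
  have hnn : ∀ z, 0 ≤ D z := fun z => (MeromorphicOn.AnalyticOnNhd.divisor_nonneg hana) z
  have hfin : (Function.support (fun z => D z)).Finite :=
    D.finiteSupport (isCompact_closedBall x ρ)
  have hpt : ∀ a ∈ s, ((s.count a : ℕ) : ℤ) ≤ D a := by
    intro a has
    have haK : a ∈ closedBall x ρ := hs a has
    have haU : a ∈ U := hsub haK
    have ha1 : a ≠ 1 := fun h => h1 (h ▸ haU)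
    rw [hD, MeromorphicOn.AnalyticOnNhd.divisor_apply hana haK]
    have h2 := J6.count_le hU h1 hF haU
    have h3 := J6.order_ne_top ha1
    obtain ⟨n, hn⟩ := ENat.ne_top_iff_exists.1 h3
    rw [← hn] at h2 ⊢
    have h4 : s.count a ≤ n := by exact_mod_cast h2
    simpa using h4
  have hcard : (s.card : ℤ) = ∑ a ∈ s.toFinset, ((s.count a : ℕ) : ℤ) := by
    rw [← Multiset.toFinset_sum_count_eq]
    push_cast
    rfl
  have hle : (s.card : ℤ) ≤ ∑ᶠ u, D u := by
    rw [hcard]
    calc ∑ a ∈ s.toFinset, ((s.count a : ℕ) : ℤ) ≤ ∑ a ∈ s.toFinset, D a := by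
          refine Finset.sum_le_sum fun a ha => hpt a (by simpa using ha)
      _ ≤ ∑ a ∈ s.toFinset ∪ hfin.toFinset, D a :=
          Finset.sum_le_sum_of_subset_of_nonneg Finset.subset_union_left fun a _ _ => hnn a
      _ = ∑ᶠ u, D u := by
          rw [finsum_eq_sum_of_support_subset]
          intro u hu
          simp only [Finset.coe_union, Set.mem_union]
          right
          simpa using hu
  exact_mod_cast hle.trans hN

end Pool.Agent.LHW
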