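import Mathlib

/-!
# Walls of zeros and the Lindelöf hypothesis: exact targets

`T1 ... T9` are propositions; each job proves one of them (theorem name in the job spec).
-/

namespace Pool.Agent.LHW

open Complex Metric Set

/-- `f = ∏ (z - a) * g` on `U` with `g` holomorphic; `s` is the multiset of the `a`. -/
def Fac (f g : ℂ → ℂ) (U : Set ℂ) (s : Multiset ℂ) : Prop :=
  DifferentiableOn ℂ g U ∧ ∀ z ∈ U, f z = (s.map fun a => z - a).prod * g z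

/-- at most `N` zeros (with multiplicity) of `f` can be split off in `K` -/
def CountLe (f : ℂ → ℂ) (U K : Set ℂ) (N : ℕ) : Prop :=
  ∀ (s : Multiset ℂ) (g : ℂ → ℂ), Fac f g U s → (∀ a ∈ s, a ∈ K) → s.card ≤ N

/-- T1: the Chebyshev constant of an interval is at least `1/8` of its length. -/
def T1 : Prop := ∀ (s : Multiset ℝ) (x y : ℝ), x < y →
  ∃ ρ ∈ Icc x y, ((y - x) / 8) ^ s.card ≤ (s.map fun b => |ρ - b|).prod

/-- T2: if the number of zeros in `K` is bounded, they can all be split off. -/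
def T2 : Prop := ∀ (f : ℂ → ℂ) (U K : Set ℂ) (N : ℕ), IsOpen U → K ⊆ U → DifferentiableOn ℂ f U →
  CountLe f U K N → ∃ (s : Multiset ℂ) (g : ℂ → ℂ), Fac f g U s ∧ (∀ a ∈ s, a ∈ K) ∧
    ∀ z ∈ K, g z ≠ 0

/-- T3: two-constant theorem for sets of positive relative capacity. -/
def T3 : Prop := ∀ c : ℝ, 0 < c → ∃ κ : ℝ, 0 < κ ∧ κ < 1 ∧
  ∀ (f : ℂ → ℂ) (U : Set ℂ) (x : ℂ) (R M m : ℝ) (E : Set ℂ), 0 < R → IsOpen U →
    closedBall x R ⊆ U → DifferentiableOn ℂ f U → (∀ z ∈ closedBall x R, ‖f z‖ ≤ M) →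
    0 < m → m ≤ M → E ⊆ closedBall x (R / 8) → (∀ z ∈ E, ‖f z‖ ≤ m) →
    (∀ s : Multiset ℂ, ∃ z ∈ E, (c * R) ^ s.card ≤ ‖(s.map fun a => z - a).prod‖) →
    ∀ z ∈ closedBall x (R / 8), ‖f z‖ ≤ M * (m / M) ^ κ

/-- T4: propagation of smallness through a disc with few zeros (disc with centre `x`, radius `R`). -/
def T4 : Prop := ∃ C : ℝ, 1 ≤ C ∧ ∀ (f : ℂ → ℂ) (U : Set ℂ) (x : ℂ) (R A a : ℝ) (N : ℕ),
  0 < R → IsOpen U → closedBall x R ⊆ U → DifferentiableOn ℂ f U → 0 < A →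
  (∀ z ∈ closedBall x R, ‖f z‖ ≤ Real.exp A) → CountLe f U (closedBall x (R / 2)) N →
  0 ≤ a → C * (a + N) ≤ A →
  (∀ z ∈ closedBall x (R / 32), ‖f z‖ ≤ Real.exp a) →
  (∃ w ∈ closedBall x (R / 64), Real.exp (-a) ≤ ‖f w‖) →
  (∀ z ∈ closedBall x (R / 16), ‖f z‖ ≤ Real.exp (C * ((a + N) ^ (1 / 4 : ℝ) * A ^ (3 / 4 : ℝ)))) ∧
  (∀ y ∈ closedBall x (R / 32), ∃ w ∈ closedBall y (R / 64),
    Real.exp (-(C * ((a + N) ^ (1 / 4 : ℝ) * A ^ (3 / 4 : ℝ)))) ≤ ‖f w‖)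

/-- T5: growth along a connected set: a bounded number of steps of length `h` fills it. -/
def T5 : Prop := ∀ (W H h : ℝ), 0 < h → ∃ M : ℕ, ∀ (S : Set ℂ) (x : ℂ) (G : ℕ → Set ℂ),
  IsPreconnected S → (∀ z ∈ S, |z.re - x.re| ≤ W ∧ |z.im - x.im| ≤ H) →
  (∀ k, G k ⊆ G (k + 1)) → (∃ p ∈ S, p ∈ G 0) →
  (∀ k < M, ∀ p ∈ S, p ∈ G k → ∀ q ∈ S, dist p q ≤ h → q ∈ G (k + 1)) → S ⊆ G M

/-- T6: zeros counted by the divisor bound the number of zeros that can be split off. -/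
def T6 : Prop := ∀ (x : ℂ) (ρ : ℝ) (N : ℕ) (U : Set ℂ), IsOpen U → closedBall x ρ ⊆ U →
  (1 : ℂ) ∉ U → (∑ᶠ u, MeromorphicOn.divisor riemannZeta (closedBall x ρ) u) ≤ (N : ℤ) →
  CountLe riemannZeta U (closedBall x ρ) N

/-- T7: (Backlund) under the Lindelöf hypothesis the discs to the right of the critical line
contain `o(log T)` zeros. -/
def T7 : Prop :=
  (∀ ε : ℝ, 0 < ε → ∃ C : ℝ, ∀ t : ℝ, ‖riemannZeta (1 / 2 + t * I)‖ ≤ C * (1 + |t|) ^ ε) →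
  ∀ δ : ℝ, 0 < δ → δ ≤ 1 / 2 → ∀ η : ℝ, 0 < η → ∃ T₀ : ℝ, ∀ T : ℝ, T₀ ≤ T → ∀ s : ℂ,
    s.im = T → 1 / 2 + δ ≤ s.re → s.re ≤ 1 →
    ((∑ᶠ u, MeromorphicOn.divisor riemannZeta (closedBall s (δ / 4)) u : ℤ) : ℝ) ≤
      η * Real.log T

/-- T8: monotonicity of the zero count, including the comparison of the discs centred to the right
of the point `1 + iτ` with the disc centred at that point. -/
def T8 : Prop :=
  (∀ (x y : ℂ) (ρ r : ℝ), 1 < x.im - ρ → closedBall y r ⊆ closedBall x ρ →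
    (∑ᶠ u, MeromorphicOn.divisor riemannZeta (closedBall y r) u) ≤
      ∑ᶠ u, MeromorphicOn.divisor riemannZeta (closedBall x ρ) u) ∧
  (∀ (τ r v : ℝ), 1 < τ - r → 1 ≤ v →
    (∑ᶠ u, MeromorphicOn.divisor riemannZeta (closedBall (v + τ * I) r) u) ≤
      ∑ᶠ u, MeromorphicOn.divisor riemannZeta (closedBall (1 + τ * I) r) u)

/-- T9: the capacity criterion: it is enough to bound zeta on sets of relative capacity `≥ c` in
discs centred on the critical line, of arbitrarily small radii. -/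
def T9 : Prop := ∀ A : ℝ, 0 ≤ A →
  (∀ B : ℝ, A < B → ∃ c : ℝ, 0 < c ∧ ∀ δ₀ : ℝ, 0 < δ₀ → ∃ δ : ℝ, 0 < δ ∧ δ ≤ δ₀ ∧ ∃ T₀ : ℝ,
    ∀ T : ℝ, T₀ ≤ T → ∀ P : Polynomial ℂ, P.Monic → ∃ s : ℂ, ‖s - (1 / 2 + T * I)‖ ≤ δ ∧
      ‖riemannZeta s‖ ≤ T ^ B ∧ (c * δ) ^ P.natDegree ≤ ‖P.eval s‖) →
  ∀ ε : ℝ, 0 < ε → ∃ C : ℝ, ∀ t : ℝ, ‖riemannZeta (1 / 2 + t * I)‖ ≤ C * (1 + |t|) ^ (A + ε)

/-- T10: a lower bound on the line `Re s = 2`. -/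
def T10 : Prop := ∀ t : ℝ, (1 / 4 : ℝ) ≤ ‖riemannZeta (2 + t * I)‖

/-- T11: crude bound in a box near a large height. -/
def T11 : Prop := ∀ H : ℝ, ∃ T₀ : ℝ, ∀ T : ℝ, T₀ ≤ T → ∀ s : ℂ, 1 / 4 ≤ s.re → s.re ≤ 4 →
  |s.im - T| ≤ H → ‖riemannZeta s‖ ≤ Real.exp (2 * Real.log T)

end Pool.Agent.LHW
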