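import Mathlib
import Pool.Agent.LHW.Targets
import Pool.Agent.Lib.ZetaConv

/-!
# Backlund direction

Under the Lindelöf hypothesis the discs to the right of the critical line contain few zeros.
-/

namespace Pool.Agent.LHW

open Complex Metric Set Filter
open Pool.Agent.Lib.ZetaConv Pool.Agent.Lib.ZetaLine Pool.Agent.Lib

/-- bounds on the critical line give bounds to the right of it -/
lemma j7_boundOn {ε C : ℝ} (hε : 0 < ε)
    (h : ∀ t : ℝ, ‖riemannZeta (1 / 2 + t * I)‖ ≤ C * (1 + |t|) ^ ε) :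
    BoundOn (1 / 2) ε := by
  obtain ⟨Cc, Tc, hCc, hTc, hc⟩ := boundOn_crude
  obtain ⟨Cr, hCr, hr⟩ := ZetaCrude.norm_zeta_le_of_two_le
  obtain ⟨T₂, hT₂⟩ : ∃ T₂ : ℝ, ∀ T : ℝ, T₂ ≤ T → 2 * T ^ (1 : ℝ) * Real.exp (-T) ≤ 1 := by
    have h1 := Real.tendsto_pow_mul_exp_neg_atTop_nhds_zero 1
    have h2 : ∀ᶠ T : ℝ in atTop, T ^ 1 * Real.exp (-T) < 1 / 2 :=
      h1.eventually (gt_mem_nhds (by norm_num))
    obtain ⟨T₂, hT₂⟩ := eventually_atTop.mp h2
    refine ⟨T₂, fun T hT => ?_⟩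
    have := hT₂ T hT
    rw [Real.rpow_one]
    rw [pow_one] at this
    linarith
  have hM0 : 0 ≤ |C| * 3 ^ ε + Cr + Cc := by positivity
  have he1 : 1 ≤ Real.exp ((2 - 1 / 2) ^ 2) := Real.one_le_exp (sq_nonneg _)
  refine ⟨(|C| * 3 ^ ε + Cr + Cc) * Real.exp ((2 - 1 / 2) ^ 2), 4 + 2 * Tc + |T₂|, ?_, ?_, ?_⟩
  · have : (0 : ℝ) ≤ |C| * 3 ^ ε := by positivity
    nlinarith
  · have := abs_nonneg T₂
    linarith
  intro s hs hT
  set T := s.im with hTdef
  have habs2 := abs_nonneg T₂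
  have hT4 : 4 ≤ T := by linarith
  have hT0 : 0 < T := by linarith
  have hTTc : Tc ≤ T / 2 := by linarith
  have hTT₂ : T₂ ≤ T := by
    have : T₂ ≤ |T₂| := le_abs_self _
    linarith
  have hTε : 1 ≤ T ^ ε := Real.one_le_rpow (by linarith) hε.le
  have hTε0 : 0 < T ^ ε := by positivity
  have h3 : (0 : ℝ) ≤ |C| * 3 ^ ε := by positivity
  rcases le_or_gt 2 s.re with h2 | h2
  · have := hr s h2
    calc ‖riemannZeta s‖ ≤ Cr := this
      _ ≤ (|C| * 3 ^ ε + Cr + Cc) * 1 * 1 := by linarith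
      _ ≤ (|C| * 3 ^ ε + Cr + Cc) * Real.exp ((2 - 1 / 2) ^ 2) * T ^ ε := by gcongr
  set Y := Real.sqrt T with hY
  have hY0 : 0 < Y := Real.sqrt_pos.mpr hT0
  have hYsq : Y ^ 2 = T := Real.sq_sqrt hT0.le
  have hYT : Y ≤ T / 2 := by nlinarith
  have key := gauss_max (a := 1 / 2) (b := 2) (κ := 0) (T := T) (Y := Y) (L := 0)
    (M := (|C| * 3 ^ ε + Cr + Cc) * T ^ ε) (by norm_num) hY0 (by linarith) (by
      intro z hz1 hz2 hz3 hside
      rw [abs_le] at hz3
      have him1 : T / 2 ≤ z.im := by linarith [hz3.1]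
      have him2 : z.im ≤ 2 * T := by linarith [hz3.2]
      have hexp2 : Real.exp (-(z.im - T) ^ 2) ≤ 1 := by
        rw [Real.exp_le_one_iff]; nlinarith [sq_nonneg (z.im - T)]
      have hz0 := norm_nonneg (riemannZeta z)
      have e0 : Real.exp (0 * 0 * (z.re - 1 / 2)) = 1 := by simp
      rw [e0, mul_one]
      rcases hside with hc1 | hc2 | hc3
      · have e1 : z = 1 / 2 + z.im * I := by
          apply Complex.ext <;> simp [hc1]
        have e2 : ‖riemannZeta z‖ ≤ |C| * (1 + |z.im|) ^ ε := by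
          have := h z.im
          rw [← e1] at this
          refine this.trans ?_
          apply mul_le_mul_of_nonneg_right (le_abs_self C)
          positivity
        have e3 : (1 + |z.im|) ^ ε ≤ 3 ^ ε * T ^ ε := by
          rw [← Real.mul_rpow (by norm_num) hT0.le]
          apply Real.rpow_le_rpow (by positivity) _ hε.le
          rw [abs_of_nonneg (by linarith)]
          linarith
        calc ‖riemannZeta z‖ * Real.exp (-(z.im - T) ^ 2) ≤ ‖riemannZeta z‖ * 1 := by gcongr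
          _ = ‖riemannZeta z‖ := mul_one _
          _ ≤ |C| * (1 + |z.im|) ^ ε := e2
          _ ≤ |C| * (3 ^ ε * T ^ ε) := by gcongr
          _ = (|C| * 3 ^ ε) * T ^ ε := by ring
          _ ≤ (|C| * 3 ^ ε + Cr + Cc) * T ^ ε := by gcongr; linarith
      · have e2 : ‖riemannZeta z‖ ≤ Cr := hr z hc2.ge
        calc ‖riemannZeta z‖ * Real.exp (-(z.im - T) ^ 2) ≤ Cr * 1 := by gcongr
          _ ≤ (|C| * 3 ^ ε + Cr + Cc) * 1 := by gcongr; linarith
          _ ≤ (|C| * 3 ^ ε + Cr + Cc) * T ^ ε := by gcongr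
      · have e2 : ‖riemannZeta z‖ ≤ Cc * z.im ^ (1 : ℝ) := hc z (by linarith) (by linarith)
        have e3 : -(z.im - T) ^ 2 = -T := by
          rw [← sq_abs, hc3, hYsq]
        rw [e3]
        have e4 := hT₂ T hTT₂
        rw [Real.rpow_one] at e2 e4
        calc ‖riemannZeta z‖ * Real.exp (-T)
            ≤ (Cc * (2 * T)) * Real.exp (-T) := by
              gcongr
              exact e2.trans (by gcongr)
          _ = Cc * (2 * T * Real.exp (-T)) := by ring
          _ ≤ Cc * 1 := by gcongr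
          _ ≤ (|C| * 3 ^ ε + Cr + Cc) * 1 := by gcongr; linarith
          _ ≤ (|C| * 3 ^ ε + Cr + Cc) * T ^ ε := by gcongr)
    (σ := s.re) hs h2.le
  have e6 : ((s.re : ℂ) + T * I) = s := by
    apply Complex.ext <;> simp [hTdef]
  rw [e6] at key
  have e0 : Real.exp (0 * 0 * (s.re - 1 / 2)) = 1 := by simp
  rw [e0, mul_one] at key
  refine key.trans (le_of_eq ?_)
  ring

/-- **T7**: the Backlund direction. -/
theorem t7 (h8 : T8) (h10 : T10) : T7 := by
  intro hLH δ hδ hδ2 η hη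
  set r : ℝ := 3 / 2 - 3 * δ / 4 with hr
  set R : ℝ := 3 / 2 - δ / 2 with hR
  have hr0 : 0 < r := by rw [hr]; linarith
  have hrR : r < R := by rw [hr, hR]; linarith
  have hR0 : 0 < R := hr0.trans hrR
  set ℓ : ℝ := Real.log (R / r) with hℓ
  have hℓ0 : 0 < ℓ := Real.log_pos (by rw [lt_div_iff₀ hr0]; linarith)
  set ε : ℝ := min 1 (η * ℓ / 2) with hεdef
  have hε0 : 0 < ε := by rw [hεdef]; positivity
  have hε1 : ε ≤ 1 := min_le_left _ _
  have hεη : ε ≤ η * ℓ / 2 := min_le_right _ _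
  obtain ⟨C₀, hC₀⟩ := hLH ε hε0
  obtain ⟨C, T₁, hC1, hT₁, hb⟩ := j7_boundOn hε0 hC₀
  obtain ⟨T₂, hT₂⟩ := eventually_atTop.mp (Real.tendsto_log_atTop.eventually_ge_atTop
    (Real.log (8 * C) / (η * ℓ / 2)))
  refine ⟨T₁ + |T₂| + 4, fun T hT s hsim hs1 hs2 => ?_⟩
  have hT₂a := abs_nonneg T₂
  have hT₂b := le_abs_self T₂
  have hT4 : 4 ≤ T := by linarith
  have hT0 : 0 < T := by linarith
  have hlogT : Real.log (8 * C) ≤ η * ℓ / 2 * Real.log T := by
    have := hT₂ T (by linarith)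
    rw [div_le_iff₀ (by positivity)] at this
    linarith
  have hL0 : 0 ≤ Real.log T := Real.log_nonneg (by linarith)
  set c : ℂ := 2 + T * I with hc
  have hcre : c.re = 2 := by simp [hc]
  have hcim : c.im = T := by simp [hc]
  have hsub : closedBall s (δ / 4) ⊆ closedBall c r := by
    apply closedBall_subset_closedBall'
    have : dist s c = 2 - s.re := by
      rw [dist_eq_norm]
      have e : s - c = ((s.re - 2 : ℝ) : ℂ) := by
        apply Complex.ext
        · simp [hc]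
        · simp [hc, hsim]
      rw [e, Complex.norm_real, Real.norm_eq_abs, abs_of_nonpos (by linarith)]
      ring
    rw [this, hr]
    linarith
  have hmono := h8.1 c s r (δ / 4) (by rw [hcim, hr]; linarith) hsub
  have hcnorm : (1 / 4 : ℝ) ≤ ‖riemannZeta c‖ := by
    rw [hc]; exact h10 T
  have hcne : riemannZeta c ≠ 0 := by
    intro h0
    rw [h0, norm_zero] at hcnorm
    norm_num at hcnorm
  have hgeo : ∀ z ∈ closedBall c R, 1 / 2 ≤ z.re ∧ T - 3 / 2 ≤ z.im ∧ z.im ≤ T + 3 / 2 := by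
    intro z hz
    rw [mem_closedBall, dist_eq_norm] at hz
    have h1 := (Complex.abs_re_le_norm (z - c)).trans hz
    have h2 := (Complex.abs_im_le_norm (z - c)).trans hz
    rw [Complex.sub_re, hcre, abs_le] at h1
    rw [Complex.sub_im, hcim, abs_le] at h2
    refine ⟨?_, ?_, ?_⟩
    · rw [hR] at h1; linarith [h1.1]
    · rw [hR] at h2; linarith [h2.1]
    · rw [hR] at h2; linarith [h2.2]
  have hTε1 : 1 ≤ T ^ ε := Real.one_le_rpow (by linarith) hε0.le
  have hTε0 : 0 < T ^ ε := by positivity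
  have hM : ∀ z ∈ sphere c |R|, ‖riemannZeta z‖ ≤ 2 * C * T ^ ε := by
    intro z hz
    rw [abs_of_pos hR0] at hz
    obtain ⟨g1, g2, g3⟩ := hgeo z (sphere_subset_closedBall hz)
    have hzim : 0 < z.im := by linarith
    calc ‖riemannZeta z‖ ≤ C * z.im ^ ε := hb z g1 (by linarith)
      _ ≤ C * (2 * T) ^ ε := by
          apply mul_le_mul_of_nonneg_left _ (by linarith)
          exact Real.rpow_le_rpow hzim.le (by linarith) hε0.le
      _ = C * (2 ^ ε * T ^ ε) := by rw [Real.mul_rpow (by norm_num) hT0.le]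
      _ ≤ C * (2 * T ^ ε) := by
          have : (2 : ℝ) ^ ε ≤ 2 := by
            calc (2 : ℝ) ^ ε ≤ 2 ^ (1 : ℝ) :=
                  Real.rpow_le_rpow_of_exponent_le (by norm_num) hε1
              _ = 2 := by norm_num
          gcongr
      _ = 2 * C * T ^ ε := by ring
  have hM1 : 1 ≤ 2 * C * T ^ ε := by nlinarith
  have han : AnalyticOnNhd ℂ riemannZeta (closedBall c |R|) := by
    rw [abs_of_pos hR0]
    have hopen : IsOpen {z : ℂ | z ≠ 1} := isOpen_ne
    have hd : DifferentiableOn ℂ riemannZeta {z : ℂ | z ≠ 1} := fun z hz =>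
      (differentiableAt_riemannZeta hz).differentiableWithinAt
    have := hd.analyticOnNhd hopen
    apply this.mono
    intro z hz h1
    obtain ⟨g1, g2, g3⟩ := hgeo z hz
    rw [h1] at g2
    simp at g2
    linarith
  have hJ := AnalyticOnNhd.sum_divisor_le (c := c) (r := r) (R := R) (M := 2 * C * T ^ ε)
    (f := riemannZeta) (by rw [abs_of_pos hr0]; exact hr0)
    (by rw [abs_of_pos hr0, abs_of_pos hR0]; exact hrR) hM1 han hcne hM
  rw [abs_of_pos hr0] at hJ
  have h1 : ((∑ᶠ u, MeromorphicOn.divisor riemannZeta (closedBall s (δ / 4)) u : ℤ) : ℝ) ≤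
      Real.log (2 * C * T ^ ε / ‖riemannZeta c‖) / ℓ := by
    refine le_trans ?_ hJ
    exact_mod_cast hmono
  refine h1.trans ?_
  rw [div_le_iff₀ hℓ0]
  have h2 : Real.log (2 * C * T ^ ε / ‖riemannZeta c‖) ≤ Real.log (8 * C * T ^ ε) := by
    apply Real.log_le_log
    · positivity
    · rw [div_le_iff₀ (by linarith)]
      have : 0 < 8 * C * T ^ ε := by positivity
      nlinarith
  refine h2.trans ?_
  rw [Real.log_mul (by positivity) (by positivity), Real.log_rpow hT0]
  have h3 : ε * Real.log T ≤ η * ℓ / 2 * Real.log T := mul_le_mul_of_nonneg_right hεη hL0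
  calc Real.log (8 * C) + ε * Real.log T ≤ η * ℓ / 2 * Real.log T + η * ℓ / 2 * Real.log T := by
        linarith
    _ = η * Real.log T * ℓ := by ring

end Pool.Agent.LHW
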