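import Pool.Agent.LHW.Targets

/-!
# T8: monotonicity of the zero count
-/

namespace Pool.Agent.LHW

open Complex Metric Set

namespace J8

theorem zeta_analytic {V : Set ℂ} (h : ∀ z ∈ V, z ≠ 1) : AnalyticOnNhd ℂ riemannZeta V := by
  have h1 : DifferentiableOn ℂ riemannZeta {z : ℂ | z ≠ 1} := fun z hz =>
    (differentiableAt_riemannZeta hz).differentiableWithinAt
  have h2 : AnalyticOnNhd ℂ riemannZeta {z : ℂ | z ≠ 1} :=
    h1.analyticOnNhd isOpen_ne
  exact h2.mono h

theorem key {V W : Set ℂ} (hV : IsCompact V) (hW : IsCompact W) (hV1 : ∀ z ∈ V, z ≠ 1)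
    (hW1 : ∀ z ∈ W, z ≠ 1) (h : ∀ z ∈ V, riemannZeta z = 0 → z ∈ W) :
    (∑ᶠ u, MeromorphicOn.divisor riemannZeta V u) ≤
      ∑ᶠ u, MeromorphicOn.divisor riemannZeta W u := by
  have aV := zeta_analytic hV1
  have aW := zeta_analytic hW1
  apply finsum_le_finsum' ((MeromorphicOn.divisor riemannZeta V).finiteSupport hV)
    ((MeromorphicOn.divisor riemannZeta W).finiteSupport hW)
  intro u
  by_cases huV : u ∈ V
  · by_cases huW : u ∈ W
    · rw [MeromorphicOn.divisor_apply aV.meromorphicOn huV,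
        MeromorphicOn.divisor_apply aW.meromorphicOn huW]
    · have h0 : riemannZeta u ≠ 0 := fun h0 => huW (h u huV h0)
      have h1 : MeromorphicOn.divisor riemannZeta V u = 0 := by
        rw [MeromorphicOn.AnalyticOnNhd.divisor_apply aV huV,
          (aV u huV).analyticOrderAt_eq_zero.mpr h0]
        simp
      rw [h1]
      exact MeromorphicOn.AnalyticOnNhd.divisor_nonneg aW u
  · have h1 : MeromorphicOn.divisor riemannZeta V u = 0 :=
      Function.locallyFinsuppWithin.apply_eq_zero_of_notMem _ huV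
    rw [h1]
    exact MeromorphicOn.AnalyticOnNhd.divisor_nonneg aW u

theorem ne_one_of {x z : ℂ} {ρ : ℝ} (h : 1 < x.im - ρ) (hz : z ∈ closedBall x ρ) : z ≠ 1 := by
  rintro rfl
  rw [mem_closedBall, dist_eq_norm] at hz
  have h1 := abs_im_le_norm (1 - x)
  rw [sub_im, one_im, zero_sub, abs_neg] at h1
  have h2 := le_abs_self x.im
  linarith

end J8

/-- T8 -/
theorem t8 : T8 := by
  refine ⟨fun x y ρ r h hs => ?_, fun τ r v h hv => ?_⟩
  · exact J8.key (isCompact_closedBall y r) (isCompact_closedBall x ρ)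
      (fun z hz => J8.ne_one_of h (hs hz)) (fun z hz => J8.ne_one_of h hz) (fun z hz _ => hs hz)
  · refine J8.key (isCompact_closedBall _ r) (isCompact_closedBall _ r)
      (fun z hz => J8.ne_one_of (x := v + τ * I) (by simpa using h) hz)
      (fun z hz => J8.ne_one_of (x := 1 + τ * I) (by simpa using h) hz) (fun z hz h0 => ?_)
    have hre : z.re < 1 := by
      by_contra hcon
      exact riemannZeta_ne_zero_of_one_le_re (not_lt.mp hcon) h0
    rw [mem_closedBall, dist_eq_norm] at hz ⊢
    refine le_trans ?_ hz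
    rw [Complex.norm_eq_sqrt_sq_add_sq, Complex.norm_eq_sqrt_sq_add_sq]
    apply Real.sqrt_le_sqrt
    simp
    nlinarith

end Pool.Agent.LHW
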