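import Mathlib
import Pool.Agent.LHW.Targets
import Pool.Agent.Lib.SampleZeta

/-!
# T9: the capacity criterion
-/

namespace Pool.Agent.LHW

open Complex Metric Set
open Pool.Agent.Lib.ZetaConv

/-- the improvement step -/
private lemma j9_improve (h3 : T3) {A β : ℝ} (hA0 : 0 ≤ A) (hAβ : A < β) (hβ : β ≤ 1)
    (h : ∀ B : ℝ, A < B → ∃ c : ℝ, 0 < c ∧ ∀ δ₀ : ℝ, 0 < δ₀ → ∃ δ : ℝ, 0 < δ ∧ δ ≤ δ₀ ∧
      ∃ T₀ : ℝ, ∀ T : ℝ, T₀ ≤ T → ∀ P : Polynomial ℂ, P.Monic →
        ∃ s : ℂ, ‖s - (1 / 2 + T * I)‖ ≤ δ ∧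
      ‖riemannZeta s‖ ≤ T ^ B ∧ (c * δ) ^ P.natDegree ≤ ‖P.eval s‖) :
    ∃ η > 0, LineB (β + η) → LineB (β - η) := by
  obtain ⟨d, hd⟩ : ∃ d : ℝ, d = (β - A) / 2 := ⟨_, rfl⟩
  have hd0 : 0 < d := by rw [hd]; linarith
  have hd1 : d ≤ 1 / 2 := by rw [hd]; linarith
  obtain ⟨c, hc, hcap⟩ := h (β - d) (by rw [hd]; linarith)
  obtain ⟨κ, hκ0, hκ1, hT3⟩ := h3 (c / 8) (by positivity)
  have hκd0 : 0 < κ * d := by positivity
  have hκd1 : κ * d ≤ 1 / 2 := by nlinarith
  obtain ⟨δ, hδ0, hδ1, T₀, hT₀⟩ := hcap (κ * d / 100) (by positivity)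
  refine ⟨κ * d / 100, by positivity, fun hline => ?_⟩
  obtain ⟨C, T₁, hC, hnear⟩ := Pool.Agent.Lib.SampleZeta.near (β := β) (η := κ * d / 100)
    (by linarith) hβ (by positivity) (by linarith) hline
  refine ⟨C, T₀ + |T₀| + T₁ + |T₁| + 3 + |T₀| + |T₁|, hC, ?_, ?_⟩
  · have := neg_abs_le T₀
    have := neg_abs_le T₁
    have := abs_nonneg T₀
    have := abs_nonneg T₁
    linarith
  intro T hT
  have a1 := neg_abs_le T₀
  have a2 := neg_abs_le T₁
  have a3 := abs_nonneg T₀
  have a4 := abs_nonneg T₁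
  have hTT₀ : T₀ ≤ T := by linarith
  have hTT₁ : T₁ ≤ T := by linarith
  have hT3' : 3 ≤ T := by linarith
  have hT0 : 0 < T := by linarith
  have hT1 : 1 ≤ T := by linarith
  obtain ⟨R, hR⟩ : ∃ R : ℝ, R = 8 * δ := ⟨_, rfl⟩
  have hR0 : 0 < R := by rw [hR]; positivity
  have hR4 : R ≤ 1 / 4 := by rw [hR]; linarith
  set x : ℂ := 1 / 2 + T * I with hx
  have hx' : ((1 / 2 : ℝ) : ℂ) + T * I = x := by rw [hx]; push_cast; ring
  have hxim : x.im = T := by simp [hx]
  -- the bound in the big disc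
  have hbig : ∀ z ∈ closedBall x R, ‖riemannZeta z‖ ≤
      C * T ^ (β + 2 * (κ * d / 100) + R) := by
    intro z hz
    rw [mem_closedBall, dist_eq_norm] at hz
    have hre : |(z - x).re| ≤ R := (abs_re_le_norm _).trans hz
    have him : |(z - x).im| ≤ R := (abs_im_le_norm _).trans hz
    have h1 := hnear T hTT₁ (z - x) (by linarith) (by linarith)
    rw [hx', add_sub_cancel] at h1
    have h2 : T ^ (-(R / 2)) ≤ Real.exp (Real.log T / 2 * (z - x).re) := by
      rw [Real.rpow_def_of_pos hT0, Real.exp_le_exp]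
      have hL : 0 ≤ Real.log T := Real.log_nonneg hT1
      rw [abs_le] at hre
      nlinarith [hre.1]
    have h4 : ‖riemannZeta z‖ * T ^ (-(R / 2)) ≤
        C * T ^ (β + 2 * (κ * d / 100) + R / 2) := by
      calc ‖riemannZeta z‖ * T ^ (-(R / 2)) ≤
          ‖riemannZeta z‖ * Real.exp (Real.log T / 2 * (z - x).re) := by gcongr
        _ ≤ _ := h1
        _ ≤ C * T ^ (β + 2 * (κ * d / 100) + R / 2) := by
          apply mul_le_mul_of_nonneg_left _ (by linarith)
          apply Real.rpow_le_rpow_of_exponent_le hT1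
          have h0 := abs_nonneg (z - x).re
          have : (1 / 2 - 2 * β) * |(z - x).re| ≤ 1 / 2 * R := by
            apply mul_le_mul _ hre h0 (by norm_num)
            linarith
          linarith
    have h5 : (T ^ (-(R / 2)) : ℝ) * T ^ (R / 2) = 1 := by
      rw [← Real.rpow_add hT0]; simp
    have h6 : 0 < T ^ (R / 2) := by positivity
    calc ‖riemannZeta z‖ = ‖riemannZeta z‖ * T ^ (-(R / 2)) * T ^ (R / 2) := by
          rw [mul_assoc, h5, mul_one]
      _ ≤ C * T ^ (β + 2 * (κ * d / 100) + R / 2) * T ^ (R / 2) := by gcongr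
      _ = C * T ^ (β + 2 * (κ * d / 100) + R) := by
          rw [mul_assoc, ← Real.rpow_add hT0]
          congr 2; ring
  obtain ⟨M, hM⟩ : ∃ M : ℝ, M = C * T ^ (β + 2 * (κ * d / 100) + R) := ⟨_, rfl⟩
  obtain ⟨m, hm⟩ : ∃ m : ℝ, m = T ^ (β - d) := ⟨_, rfl⟩
  have hm0 : 0 < m := by rw [hm]; positivity
  have hM0 : 0 < M := by rw [hM]; positivity
  have hTb : T ^ β ≤ M := by
    rw [hM]
    have h1 : T ^ β ≤ T ^ (β + 2 * (κ * d / 100) + R) :=
      Real.rpow_le_rpow_of_exponent_le hT1 (by linarith)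
    have h2 : 0 < T ^ (β + 2 * (κ * d / 100) + R) := by positivity
    nlinarith
  have hmM : m ≤ M := by
    refine le_trans ?_ hTb
    rw [hm]
    exact Real.rpow_le_rpow_of_exponent_le hT1 (by linarith)
  have hmdiv : m / M ≤ T ^ (-d) := by
    rw [div_le_iff₀ hM0, hm]
    calc T ^ (β - d) = T ^ (-d) * T ^ β := by
          rw [← Real.rpow_add hT0]; congr 1; ring
      _ ≤ T ^ (-d) * M := by gcongr
  have hkey := hT3 riemannZeta {z : ℂ | 1 < z.im} x R M m
    {z ∈ closedBall x (R / 8) | ‖riemannZeta z‖ ≤ m} hR0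
    (isOpen_lt continuous_const continuous_im) (by
      intro z hz
      rw [mem_closedBall, dist_eq_norm] at hz
      have him : |(z - x).im| ≤ R := (abs_im_le_norm _).trans hz
      rw [abs_le, sub_im, hxim] at him
      change 1 < z.im
      linarith [him.1]) (by
      intro z hz
      apply (differentiableAt_riemannZeta _).differentiableWithinAt
      rintro rfl
      have hz' : (1 : ℝ) < 0 := by simpa using hz
      linarith) (by
      intro z hz
      rw [hM]
      exact hbig z hz) hm0 hmM (fun z hz => hz.1) (fun z hz => hz.2) (by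
      intro s
      obtain ⟨z, hz1, hz2, hz3⟩ := hT₀ T hTT₀ (s.map fun a => Polynomial.X - Polynomial.C a).prod
        (Polynomial.monic_multisetProd_X_sub_C s)
      refine ⟨z, ⟨?_, ?_⟩, ?_⟩
      · rw [mem_closedBall, dist_eq_norm, hR]
        refine hz1.trans (by linarith)
      · rw [hm]; exact hz2
      · rw [Polynomial.natDegree_multiset_prod_X_sub_C_eq_card, Polynomial.eval_multiset_prod,
          Multiset.map_map] at hz3
        have e1 : c / 8 * R = c * δ := by rw [hR]; ring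
        rw [e1]
        simpa [Function.comp_def] using hz3)
    x (by
      rw [mem_closedBall, dist_self]; positivity)
  have hfin : ‖riemannZeta x‖ ≤ C * T ^ (β - κ * d / 100) := by
    refine hkey.trans ?_
    have h1 : (m / M) ^ κ ≤ T ^ (-(κ * d)) := by
      calc (m / M) ^ κ ≤ (T ^ (-d)) ^ κ :=
            Real.rpow_le_rpow (by positivity) hmdiv hκ0.le
        _ = T ^ (-(κ * d)) := by
            rw [← Real.rpow_mul hT0.le]; congr 1; ring
    calc M * (m / M) ^ κ ≤ M * T ^ (-(κ * d)) := by gcongr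
      _ = C * T ^ (β + 2 * (κ * d / 100) + R - κ * d) := by
          rw [hM, mul_assoc, ← Real.rpow_add hT0]
          congr 2
      _ ≤ C * T ^ (β - κ * d / 100) := by
          apply mul_le_mul_of_nonneg_left _ (by linarith)
          apply Real.rpow_le_rpow_of_exponent_le hT1
          rw [hR]
          linarith
  rw [hx']
  exact hfin

/-- **T9** -/
theorem t9 (h3 : T3) : T9 := by
  intro A hA0 h ε hε
  suffices hline : LineB (A + ε) by
    exact Pool.Agent.Lib.SampleZeta.LineB.line (by linarith) hline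
  by_contra hcon
  let S : Set ℝ := {B | LineB B}
  have hlow : ∀ B ∈ S, A + ε ≤ B := by
    intro B hB
    by_contra hlt
    push Not at hlt
    exact hcon (LineB.mono hB hlt.le)
  have hne : S.Nonempty := ⟨1, lineB_one⟩
  have hbdd : BddBelow S := ⟨A + ε, hlow⟩
  have hAβ : A < sInf S := by
    have : A + ε ≤ sInf S := le_csInf hne hlow
    linarith
  have hβ1 : sInf S ≤ 1 := csInf_le hbdd lineB_one
  obtain ⟨η, hη, himp⟩ := j9_improve h3 hA0 hAβ hβ1 h
  have h1 : LineB (sInf S + η) := by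
    obtain ⟨B, hB, hBlt⟩ := exists_lt_of_csInf_lt hne (show sInf S < sInf S + η by linarith)
    exact LineB.mono hB hBlt.le
  have h2 := csInf_le hbdd (himp h1)
  linarith

end Pool.Agent.LHW
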