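import Pool.Agent.LHW.Main
import Pool.Agent.LHW.J1
import Pool.Agent.LHW.J2
import Pool.Agent.LHW.J3
import Pool.Agent.LHW.J4
import Pool.Agent.LHW.J5
import Pool.Agent.LHW.J6
import Pool.Agent.LHW.J7
import Pool.Agent.LHW.J8
import Pool.Agent.LHW.J10

namespace Pool.Agent.LHW

open Complex Metric Set Filter Topology

/-- A connected set crossing the annulus `R/16 ≤ |z - x| ≤ R/8` has capacity at least `R/128`. -/
lemma cap_connected {S : Set ℂ} (hS : IsConnected S) {x : ℂ} {R : ℝ} (hR : 0 < R)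
    (hin : ∃ s ∈ S, ‖s - x‖ ≤ R / 16) (hout : ∃ s ∈ S, R / 8 ≤ ‖s - x‖) (s : Multiset ℂ) :
    ∃ z ∈ S ∩ closedBall x (R / 8), (1 / 128 * R) ^ s.card ≤ ‖(s.map fun a => z - a).prod‖ := by
  obtain ⟨p, hp, hp1⟩ := hin
  obtain ⟨q, hq, hq1⟩ := hout
  obtain ⟨ρ, hρ, hρ2⟩ := t1 (s.map fun a => ‖a - x‖) (R / 16) (R / 8) (by linarith)
  have hcont : ContinuousOn (fun z : ℂ => ‖z - x‖) S := by fun_prop
  have hiv := hS.isPreconnected.intermediate_value hp hq hcont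
  obtain ⟨z, hz, hzρ⟩ := hiv (show ρ ∈ Icc ‖p - x‖ ‖q - x‖ from
    ⟨hp1.trans hρ.1, hρ.2.trans hq1⟩)
  simp only at hzρ
  refine ⟨z, ⟨hz, ?_⟩, ?_⟩
  · rw [mem_closedBall, dist_eq_norm, hzρ]
    exact hρ.2
  · have h1 : (1 / 128 * R) ^ s.card = ((R / 8 - R / 16) / 8) ^ (s.map fun a => ‖a - x‖).card := by
      rw [Multiset.card_map]
      congr 1
      ring
    rw [h1]
    refine hρ2.trans ?_
    rw [Multiset.map_map, J3.norm_prod]
    refine (J3.prod_mono s _ _ ?_ ?_).1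
    · intro a _
      exact abs_nonneg _
    · intro a _
      simp only [Function.comp_apply]
      rw [← hzρ]
      have h2 : z - a = (z - x) - (a - x) := by ring
      rw [h2]
      exact abs_norm_sub_norm_le _ _

/-- **Local theorem.** -/
theorem local_thm : ∀ ε : ℝ, 0 < ε → ∃ δ : ℝ, 0 < δ ∧ ∀ H r : ℝ, 0 < r →
    ∃ η : ℝ, 0 < η ∧ ∃ T₀ : ℝ, ∀ s₀ : ℂ, 1 / 2 ≤ s₀.re → s₀.re ≤ 1 → T₀ ≤ s₀.im →
      ∀ S : Set ℂ, Corridor S s₀ δ H → (∀ s ∈ S, (zeroCount s r : ℝ) ≤ η * Real.log s₀.im) →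
        ‖riemannZeta s₀‖ ≤ s₀.im ^ ε := by
  intro ε hε
  obtain ⟨κ, hκ0, hκ1, h3⟩ := t3 t2 (1 / 128) (by norm_num)
  set ε₀ : ℝ := min (ε / 2) 1 with hε₀
  have hε₀0 : 0 < ε₀ := lt_min (by linarith) one_pos
  have hε₀1 : ε₀ ≤ 1 := min_le_right _ _
  have hε₀2 : ε₀ ≤ ε / 2 := min_le_left _ _
  obtain ⟨J, hJ⟩ := exists_pow_lt_of_lt_one (show 0 < ε / 4 by linarith)
    (show 1 - κ < 1 by linarith)
  have hq0 : 0 < 1 - κ := by linarith
  refine ⟨1 / 64 * (1 / 8) ^ J, by positivity, ?_⟩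
  intro H r hr
  obtain ⟨η, hη, T₁, hT₁⟩ := small_on t4 t5 t6 t8 t10 (H := H) hr hε₀0
  obtain ⟨T₂, hT₂⟩ := t11 1
  refine ⟨η, hη, max (max T₁ T₂) 10, ?_⟩
  intro s₀ hre1 hre2 him S hS hcount
  set T := s₀.im with hT
  have hTT1 : T₁ ≤ T := le_trans (le_trans (le_max_left _ _) (le_max_left _ _)) him
  have hTT2 : T₂ ≤ T := le_trans (le_trans (le_max_right _ _) (le_max_left _ _)) him
  have hT10 : 10 ≤ T := le_trans (le_max_right _ _) him
  have hT0 : 0 < T := by linarith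
  have hT1 : 1 ≤ T := by linarith
  obtain ⟨S', hS', hSS', ⟨z₂, hz₂, hz₂re⟩, hsmall⟩ := hT₁ T hTT1 S s₀ _ hT.symm hS hcount
  obtain ⟨p, hpS, hp⟩ := hS.2.2.1
  have hpS' : p ∈ S' := hSS' hpS
  have hz₂n : 1 ≤ ‖z₂ - s₀‖ := by
    have h1 := abs_re_le_norm (z₂ - s₀)
    rw [sub_re, hz₂re] at h1
    have h2 : 1 ≤ |2 - s₀.re| := by
      rw [abs_of_nonneg (by linarith)]; linarith
    linarith
  -- the induction over the scales
  have hind : ∀ j ≤ J, ∀ z ∈ closedBall s₀ (1 / 4 * (1 / 8) ^ j),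
      ‖riemannZeta z‖ ≤ T ^ (ε₀ + (2 - ε₀) * (1 - κ) ^ j) := by
    intro j
    induction j with
    | zero =>
      intro _ z hz
      have hz' : ‖z - s₀‖ ≤ 1 / 4 := by
        rw [← dist_eq_norm]
        simpa using hz
      have h1 := (abs_re_le_norm _).trans hz'
      have h2 := (abs_im_le_norm _).trans hz'
      rw [sub_re, abs_le] at h1
      rw [sub_im, abs_le] at h2
      have h3 := hT₂ T hTT2 z (by linarith [h1.1]) (by linarith [h1.2]) (by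
        rw [abs_le]; constructor <;> linarith [h2.1, h2.2])
      refine h3.trans (le_of_eq ?_)
      rw [pow_zero, mul_one, add_sub_cancel, Real.rpow_def_of_pos hT0]
      congr 1
      ring
    | succ j ih =>
      intro hj z hz
      have ih' := ih (by omega)
      set R : ℝ := 1 / 4 * (1 / 8) ^ j with hR
      have hR0 : 0 < R := by positivity
      have hpow1 : ((1 : ℝ) / 8) ^ j ≤ 1 := pow_le_one₀ (by norm_num) (by norm_num)
      have hR4 : R ≤ 1 / 4 := by rw [hR]; linarith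
      have hδR : 1 / 64 * (1 / 8 : ℝ) ^ J ≤ R / 16 := by
        have h1 : ((1 : ℝ) / 8) ^ J ≤ (1 / 8) ^ j :=
          pow_le_pow_of_le_one (by norm_num) (by norm_num) (by omega)
        rw [hR]; linarith
      set e : ℝ := ε₀ + (2 - ε₀) * (1 - κ) ^ j with he
      have hqj : 0 < (1 - κ) ^ j := by positivity
      have hee : ε₀ ≤ e := by
        rw [he]
        have : 0 ≤ (2 - ε₀) * (1 - κ) ^ j := by
          apply mul_nonneg (by linarith) hqj.le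
        linarith
      have hz8 : z ∈ closedBall s₀ (R / 8) := by
        have : (1 : ℝ) / 4 * (1 / 8) ^ (j + 1) = R / 8 := by rw [hR, pow_succ]; ring
        rwa [this] at hz
      have key := h3 riemannZeta Up s₀ R (T ^ e) (T ^ ε₀) (S' ∩ closedBall s₀ (R / 8)) hR0
        isOpen_Up (ball_Up (by rw [← hT]; linarith)) diff_Up ih' (by positivity)
        (Real.rpow_le_rpow_of_exponent_le hT1 hee) inter_subset_right
        (fun w hw => hsmall w hw.1)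
        (fun s => cap_connected hS' hR0 ⟨p, hpS', hp.trans hδR⟩
          ⟨z₂, hz₂, by linarith⟩ s) z hz8
      refine key.trans (le_of_eq ?_)
      rw [← Real.rpow_sub hT0, ← Real.rpow_mul hT0.le, ← Real.rpow_add hT0]
      congr 1
      rw [he, pow_succ]
      ring
  have hfin := hind J le_rfl s₀ (mem_closedBall_self (by positivity))
  refine hfin.trans ?_
  apply Real.rpow_le_rpow_of_exponent_le hT1
  have : (2 - ε₀) * (1 - κ) ^ J ≤ 2 * (ε / 4) := by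
    apply mul_le_mul (by linarith) hJ.le (by positivity) (by norm_num)
  linarith

/-- **Necessity** (Backlund): under the Lindelöf hypothesis corridors exist. -/
theorem corridors (hLH : ∀ ε : ℝ, 0 < ε → ∃ C : ℝ, ∀ t : ℝ,
      ‖riemannZeta (1 / 2 + t * I)‖ ≤ C * (1 + |t|) ^ ε) {δ : ℝ} (hδ : 0 < δ) :
    ∃ r : ℝ, 0 < r ∧ ∀ η : ℝ, 0 < η → ∃ T₀ : ℝ, ∀ s₀ : ℂ, 1 / 2 ≤ s₀.re → s₀.re ≤ 1 →
      T₀ ≤ s₀.im → ∃ S : Set ℂ, Corridor S s₀ δ 0 ∧
        ∀ s ∈ S, (zeroCount s r : ℝ) ≤ η * Real.log s₀.im := by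
  obtain ⟨d, hd⟩ : ∃ d : ℝ, d = min δ (1 / 2) := ⟨_, rfl⟩
  have hd0 : 0 < d := by rw [hd]; exact lt_min hδ (by norm_num)
  have hd1 : d ≤ 1 / 2 := by rw [hd]; exact min_le_right _ _
  have hd2 : d ≤ δ := by rw [hd]; exact min_le_left _ _
  refine ⟨d / 4, by positivity, ?_⟩
  intro η hη
  obtain ⟨T₀, hT₀⟩ := t7 t8 t10 hLH d hd0 hd1 η hη
  refine ⟨T₀, ?_⟩
  intro s₀ h1 h2 h3
  obtain ⟨v₀, hv₀⟩ : ∃ v₀ : ℝ, v₀ = max s₀.re (1 / 2 + d) := ⟨_, rfl⟩
  have hv1 : 1 / 2 + d ≤ v₀ := by rw [hv₀]; exact le_max_right _ _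
  have hv2 : v₀ ≤ 1 := by rw [hv₀]; exact max_le h2 (by linarith)
  have hv3 : s₀.re ≤ v₀ := by rw [hv₀]; exact le_max_left _ _
  have hv4 : v₀ - s₀.re ≤ d := by
    rw [hv₀, sub_le_iff_le_add]
    exact max_le (by linarith) (by linarith)
  refine ⟨(fun v : ℝ => (v : ℂ) + s₀.im * I) '' Icc v₀ 1, ⟨?_, ?_, ?_, ?_⟩, ?_⟩
  · exact ⟨⟨_, 1, ⟨hv2, le_rfl⟩, rfl⟩, isPreconnected_Icc.image _ (by fun_prop)⟩
  · rintro _ ⟨v, hv, rfl⟩
    simp only [add_re, ofReal_re, mul_re, I_re, mul_zero, ofReal_im, I_im, mul_one, sub_self,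
      add_zero, add_im, mul_im, zero_add, abs_zero, le_refl, and_true]
    exact ⟨by linarith [hv.1], hv.2⟩
  · refine ⟨(v₀ : ℂ) + s₀.im * I, ⟨v₀, ⟨le_rfl, hv2⟩, rfl⟩, ?_⟩
    have h5 : ((v₀ : ℂ) + s₀.im * I) - s₀ = ((v₀ - s₀.re : ℝ) : ℂ) := by
      apply Complex.ext <;> simp
    rw [h5, norm_real, Real.norm_eq_abs, abs_of_nonneg (by linarith)]
    linarith
  · exact ⟨(1 : ℝ) + s₀.im * I, ⟨1, ⟨hv2, le_rfl⟩, rfl⟩, by simp⟩
  · rintro _ ⟨v, hv, rfl⟩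
    have h5 := hT₀ s₀.im h3 ((v : ℂ) + s₀.im * I) (by simp) (by simp; linarith [hv.1])
      (by simpa using hv.2)
    exact h5

end Pool.Agent.LHW
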