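import Pool.Agent.LHW.Targets
import Pool.Agent.Lib.ZetaCrude

namespace Pool.Agent.LHW

open Complex Metric Set Filter Topology

theorem t11 : T11 := by
  intro H
  obtain ⟨C, hC, h⟩ := Pool.Agent.Lib.ZetaCrude.norm_zeta_le_crude
  have hlog : ∀ᶠ T : ℝ in atTop, C * (T + (6 + |H|)) ≤ T ^ 2 := by
    filter_upwards [eventually_ge_atTop (C * (1 + (6 + |H|))), eventually_ge_atTop 1] with T h1 h2
    have : C * (T + (6 + |H|)) ≤ C * (1 + (6 + |H|)) * T := by
      have h3 : 0 ≤ |H| := abs_nonneg H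
      rw [mul_assoc]
      apply mul_le_mul_of_nonneg_left _ (by linarith)
      nlinarith
    nlinarith
  obtain ⟨T₁, hT₁⟩ := eventually_atTop.mp (hlog.and (eventually_ge_atTop (2 + |H|)))
  refine ⟨T₁, ?_⟩
  intro T hT s h1 h2 h3
  obtain ⟨h4, h5⟩ := hT₁ T hT
  have hH := abs_nonneg H
  have hHle : H ≤ |H| := le_abs_self H
  rw [abs_le] at h3
  have hT0 : 0 < T := by linarith
  have him : 1 ≤ s.im := by linarith [h3.1]
  have hn1 : 1 ≤ ‖s - 1‖ := by
    have := abs_im_le_norm (s - 1)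
    have h6 : (s - 1).im = s.im := by simp
    rw [h6] at this
    exact le_trans him (le_trans (le_abs_self _) this)
  have hn2 : ‖s‖ ≤ T + (5 + |H|) := by
    have := norm_le_abs_re_add_abs_im s
    rw [abs_of_nonneg (by linarith : (0 : ℝ) ≤ s.re), abs_of_nonneg (by linarith : (0 : ℝ) ≤ s.im)]
      at this
    linarith [h3.2]
  have h6 := h s h1 hn1
  have h7 : Real.exp (2 * Real.log T) = T ^ 2 := by
    rw [two_mul, Real.exp_add, Real.exp_log hT0]; ring
  rw [h7]
  refine h6.trans (le_trans ?_ h4)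
  apply mul_le_mul_of_nonneg_left _ (by linarith)
  linarith

/-- the numbers of the recursion -/
lemma numbers (C : ℝ) (hC : 1 ≤ C) (M : ℕ) (ε : ℝ) (hε : 0 < ε) :
    ∃ (α : ℕ → ℝ) (η : ℝ), 0 < η ∧ (∀ k, 0 < α k) ∧ (∀ k, α k ≤ α (k + 1)) ∧
      (∀ k < M, C * (α k + η) ≤ 2 ∧
        C * ((α k + η) ^ (1 / 4 : ℝ) * 2 ^ (3 / 4 : ℝ)) ≤ α (k + 1)) ∧ α M ≤ ε := by
  let β : ℕ → ℝ := fun j => Nat.rec (min ε 1) (fun _ b => (b / (2 * C)) ^ 4 / 2) j
  have hβ0 : β 0 = min ε 1 := rfl
  have hβs : ∀ j, β (j + 1) = (β j / (2 * C)) ^ 4 / 2 := fun j => rfl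
  have hC0 : 0 < C := by linarith
  have hpos : ∀ j, 0 < β j ∧ β j ≤ 1 := by
    intro j
    induction j with
    | zero => rw [hβ0]; exact ⟨lt_min hε one_pos, min_le_right _ _⟩
    | succ j ih =>
      rw [hβs]
      obtain ⟨h1, h2⟩ := ih
      refine ⟨by positivity, ?_⟩
      have h3 : β j / (2 * C) ≤ 1 := by
        rw [div_le_one (by positivity)]; linarith
      have h4 : (β j / (2 * C)) ^ 4 ≤ 1 := pow_le_one₀ (by positivity) h3
      linarith
  have hdec : ∀ j, β (j + 1) ≤ β j := by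
    intro j
    obtain ⟨h1, h2⟩ := hpos j
    rw [hβs]
    have h3 : β j / (2 * C) ≤ β j := by
      apply div_le_self h1.le
      linarith
    have h3' : β j / (2 * C) ≤ 1 := h3.trans h2
    have h4 : (β j / (2 * C)) ^ 4 ≤ β j / (2 * C) := by
      apply pow_le_of_le_one (by positivity) h3' (by norm_num)
    linarith
  have hanti : Antitone β := antitone_nat_of_succ_le hdec
  refine ⟨fun k => β (M - k), β M, (hpos M).1, fun k => (hpos _).1, ?_, ?_, ?_⟩
  · intro k
    exact hanti (show M - (k + 1) ≤ M - k by omega)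
  · intro k hk
    obtain ⟨j, hj⟩ : ∃ j, M - k = j + 1 := ⟨M - k - 1, by omega⟩
    have hj' : M - (k + 1) = j := by omega
    simp only [hj, hj']
    have h1 : β M ≤ β (j + 1) := hanti (show j + 1 ≤ M by omega)
    obtain ⟨p0, p1⟩ := hpos j
    have h2 : β (j + 1) + β M ≤ (β j / (2 * C)) ^ 4 := by
      have := hβs j
      linarith
    have h3 : β j / (2 * C) ≤ 1 / (2 * C) := by gcongr
    have h4 : (β j / (2 * C)) ^ 4 ≤ β j / (2 * C) := by
      apply pow_le_of_le_one (by positivity) _ (by norm_num)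
      rw [div_le_one (by positivity)]; linarith
    constructor
    · calc C * (β (j + 1) + β M) ≤ C * (1 / (2 * C)) := by
            apply mul_le_mul_of_nonneg_left _ hC0.le
            linarith
        _ = 1 / 2 := by field_simp
        _ ≤ 2 := by norm_num
    · have h5 : (β (j + 1) + β M) ^ (1 / 4 : ℝ) ≤ β j / (2 * C) := by
        have h6 : ((β j / (2 * C)) ^ 4) ^ (1 / 4 : ℝ) = β j / (2 * C) := by
          rw [← Real.rpow_natCast, ← Real.rpow_mul (by positivity)]
          norm_num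
        rw [← h6]
        apply Real.rpow_le_rpow _ h2 (by norm_num)
        linarith [(hpos (j + 1)).1, (hpos M).1]
      have h7 : (2 : ℝ) ^ (3 / 4 : ℝ) ≤ 2 := by
        calc (2 : ℝ) ^ (3 / 4 : ℝ) ≤ 2 ^ (1 : ℝ) :=
              Real.rpow_le_rpow_of_exponent_le (by norm_num) (by norm_num)
          _ = 2 := by norm_num
      calc C * ((β (j + 1) + β M) ^ (1 / 4 : ℝ) * 2 ^ (3 / 4 : ℝ))
          ≤ C * (β j / (2 * C) * 2) := by
            gcongr
        _ = β j := by field_simp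
  · simp only [Nat.sub_self, hβ0]
    exact min_le_left _ _

end Pool.Agent.LHW
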