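import Pool.Agent.LHW.Targets
import Pool.Agent.LHW.Num
import Pool.Agent.Lib.ZetaConv

namespace Pool.Agent.LHW

open Complex Metric Set Filter Topology

/-- The number of zeros of the Riemann zeta function in the closed disc with centre `s` and
radius `r`, with multiplicity (for discs not containing the pole `1`). -/
noncomputable def zeroCount (s : ℂ) (r : ℝ) : ℤ :=
  ∑ᶠ u, MeromorphicOn.divisor riemannZeta (closedBall s r) u

/-- `S` is a connected set in the right half of the critical strip, at heights within `H` of the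
height of `s₀`, which joins the `δ`-neighbourhood of `s₀` to the line `Re s = 1`. -/
def Corridor (S : Set ℂ) (s₀ : ℂ) (δ H : ℝ) : Prop :=
  IsConnected S ∧ (∀ s ∈ S, 1 / 2 ≤ s.re ∧ s.re ≤ 1 ∧ |s.im - s₀.im| ≤ H) ∧
    (∃ s ∈ S, ‖s - s₀‖ ≤ δ) ∧ ∃ s ∈ S, s.re = 1

/-- the open half plane of heights `> 1` -/
def Up : Set ℂ := {s : ℂ | 1 < s.im}

lemma isOpen_Up : IsOpen Up := isOpen_lt continuous_const continuous_im

lemma one_notMem_Up : (1 : ℂ) ∉ Up := by simp [Up]

lemma diff_Up : DifferentiableOn ℂ riemannZeta Up := by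
  intro s hs
  apply (differentiableAt_riemannZeta _).differentiableWithinAt
  rintro rfl
  exact one_notMem_Up hs

lemma ball_Up {x : ℂ} {R : ℝ} (h : 1 < x.im - R) : closedBall x R ⊆ Up := by
  intro z hz
  rw [mem_closedBall, dist_eq_norm] at hz
  have h1 := (abs_im_le_norm (z - x)).trans hz
  rw [sub_im, abs_le] at h1
  show 1 < z.im
  linarith [h1.1]

/-- smallness at a point -/
def Small (R a : ℝ) (p : ℂ) : Prop :=
  (∀ z ∈ closedBall p (R / 32), ‖riemannZeta z‖ ≤ Real.exp a) ∧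
    ∃ w ∈ closedBall p (R / 64), Real.exp (-a) ≤ ‖riemannZeta w‖

lemma Small.mono {R a b : ℝ} {p : ℂ} (h : Small R a p) (hab : a ≤ b) : Small R b p := by
  obtain ⟨h1, w, hw, h2⟩ := h
  refine ⟨fun z hz => (h1 z hz).trans (Real.exp_le_exp.mpr hab), w, hw, ?_⟩
  exact (Real.exp_le_exp.mpr (by linarith)).trans h2

/-- On a corridor with few zeros zeta is small. -/
lemma small_on (h4 : T4) (h5 : T5) (h6 : T6) (h8 : T8) (h10 : T10) {H r ε : ℝ}
    (hr : 0 < r) (hε : 0 < ε) :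
    ∃ η > 0, ∃ T₀ : ℝ, ∀ T : ℝ, T₀ ≤ T → ∀ (S : Set ℂ) (s₀ : ℂ) (δ : ℝ), s₀.im = T →
      Corridor S s₀ δ H → (∀ s ∈ S, (zeroCount s r : ℝ) ≤ η * Real.log T) →
      ∃ S' : Set ℂ, IsConnected S' ∧ S ⊆ S' ∧ (∃ z ∈ S', z.re = 2) ∧
        ∀ s ∈ S', ‖riemannZeta s‖ ≤ T ^ ε := by
  obtain ⟨C, hC, h4⟩ := h4
  obtain ⟨R, hR⟩ : ∃ R : ℝ, R = min (2 * r) (1 / 4) := ⟨_, rfl⟩
  have hR0 : 0 < R := by rw [hR]; exact lt_min (by linarith) (by norm_num)
  have hR4 : R ≤ 1 / 4 := by rw [hR]; exact min_le_right _ _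
  have hRr : R / 2 ≤ r := by
    have : R ≤ 2 * r := by rw [hR]; exact min_le_left _ _
    linarith
  obtain ⟨M, h5⟩ := h5 (3 / 2) H (R / 32) (by positivity)
  obtain ⟨α, η, hη, hα0, hα1, hα2, hαM⟩ := numbers C hC M ε hε
  obtain ⟨T₁, hT₁⟩ := t11 (|H| + 1)
  obtain ⟨C', hC', hCz⟩ := Pool.Agent.Lib.ZetaConv.norm_zeta_le_of_re (δ := 1 / 2) (by norm_num)
  have hlarge : ∀ᶠ T : ℝ in atTop, Real.log C' ≤ α 0 * Real.log T ∧
      Real.log 4 ≤ α 0 * Real.log T := by
    have ht : Tendsto (fun T : ℝ => α 0 * Real.log T) atTop atTop :=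
      Real.tendsto_log_atTop.const_mul_atTop (hα0 0)
    exact (ht.eventually_ge_atTop _).and (ht.eventually_ge_atTop _)
  obtain ⟨T₂, hT₂⟩ := eventually_atTop.mp hlarge
  refine ⟨η, hη, max (max T₁ T₂) (|H| + r + 10), ?_⟩
  intro T hT S s₀ δ hs₀ hS hcount
  have hTT1 : T₁ ≤ T := le_trans (le_trans (le_max_left _ _) (le_max_left _ _)) hT
  have hTT2 : T₂ ≤ T := le_trans (le_trans (le_max_right _ _) (le_max_left _ _)) hT
  have hTH : |H| + r + 10 ≤ T := le_trans (le_max_right _ _) hT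
  have hHabs := abs_nonneg H
  have hHle := le_abs_self H
  have hT0 : 0 < T := by linarith
  obtain ⟨hlogC, hlog4⟩ := hT₂ T hTT2
  set L := Real.log T with hL
  have hL0 : 0 < L := Real.log_pos (by linarith)
  obtain ⟨hconn, hbox, -, s₁, hs₁, hs₁re⟩ := hS
  rw [hs₀] at hbox
  set τ := s₁.im with hτ
  have hs₁eq : s₁ = 1 + τ * I := by
    apply Complex.ext <;> simp [hs₁re, hτ]
  have hτT : |τ - T| ≤ H := (hbox s₁ hs₁).2.2
  -- prolongation
  let seg : Set ℂ := (fun v : ℝ => (v : ℂ) + τ * I) '' Icc 1 2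
  have hseg : IsPreconnected seg := isPreconnected_Icc.image _ (by fun_prop)
  let S' : Set ℂ := S ∪ seg
  have hs₁seg : s₁ ∈ seg := ⟨1, by simp, by rw [hs₁eq]; simp⟩
  have hS'conn : IsPreconnected S' := hconn.isPreconnected.union s₁ hs₁ hs₁seg hseg
  have hS'box : ∀ z ∈ S', (1 / 2 ≤ z.re ∧ z.re ≤ 2) ∧ |z.im - T| ≤ H := by
    rintro z (hz | ⟨v, hv, rfl⟩)
    · obtain ⟨g1, g2, g3⟩ := hbox z hz
      exact ⟨⟨g1, by linarith⟩, g3⟩
    · simp only [add_re, ofReal_re, mul_re, I_re, mul_zero, ofReal_im, I_im, mul_one, sub_self,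
        add_zero, add_im, mul_im, zero_add]
      exact ⟨⟨by linarith [hv.1], hv.2⟩, hτT⟩
  have hcount' : ∀ z ∈ S', (zeroCount z (R / 2) : ℝ) ≤ η * L := by
    rintro z (hz | ⟨v, hv, rfl⟩)
    · have g3 := (hbox z hz).2.2
      rw [abs_le] at g3
      have h1 := h8.1 z z r (R / 2) (by linarith [g3.1])
        (closedBall_subset_closedBall hRr)
      have h2 : (zeroCount z (R / 2) : ℝ) ≤ (zeroCount z r : ℝ) := by exact_mod_cast h1
      exact h2.trans (hcount z hz)
    · rw [abs_le] at hτT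
      have h1 := h8.2 τ (R / 2) v (by linarith [hτT.1]) hv.1
      have h2 := h8.1 s₁ s₁ r (R / 2) (by rw [← hτ]; linarith [hτT.1])
        (closedBall_subset_closedBall hRr)
      have h3 : (zeroCount ((v : ℂ) + τ * I) (R / 2) : ℝ) ≤ (zeroCount s₁ r : ℝ) := by
        have : zeroCount ((v : ℂ) + τ * I) (R / 2) ≤ zeroCount s₁ r := by
          refine le_trans h1 ?_
          rw [← hs₁eq]
          exact h2
        exact_mod_cast this
      exact h3.trans (hcount s₁ hs₁)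
  -- the level sets
  let G : ℕ → Set ℂ := fun k => {p | Small R (α k * L) p}
  have key := h5 S' (1 / 2 + T * I) G hS'conn ?_ ?_ ?_ ?_
  · refine ⟨S', ⟨⟨s₁, Or.inl hs₁⟩, hS'conn⟩, subset_union_left,
      ⟨(2 : ℝ) + τ * I, Or.inr ⟨2, by simp, rfl⟩, by simp⟩, ?_⟩
    intro s hs
    have hG : Small R (α M * L) s := key hs
    have h1 := hG.1 s (mem_closedBall_self (by positivity))
    refine h1.trans ?_
    rw [Real.rpow_def_of_pos hT0, Real.exp_le_exp, ← hL]
    nlinarith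
  · intro z hz
    obtain ⟨⟨g1, g2⟩, g3⟩ := hS'box z hz
    constructor
    · simp only [add_re, mul_re, ofReal_re, I_re, mul_zero, ofReal_im, I_im, mul_one, sub_self,
        add_zero]
      have : (1 / 2 : ℂ).re = 1 / 2 := by norm_num
      rw [this, abs_le]
      constructor <;> linarith
    · have : (1 / 2 + (T : ℂ) * I).im = T := by simp
      rw [this]
      exact g3
  · intro k p hp
    exact Small.mono hp (by nlinarith [hα1 k])
  · -- the start
    refine ⟨(2 : ℝ) + τ * I, Or.inr ⟨2, by simp, rfl⟩, ?_, ?_⟩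
    · intro z hz
      have hz' : ‖z - ((2 : ℝ) + τ * I)‖ ≤ R / 32 := by
        rw [← dist_eq_norm]; exact hz
      have h1 := (abs_re_le_norm _).trans hz'
      have h2 : (z - ((2 : ℝ) + τ * I)).re = z.re - 2 := by simp
      rw [h2, abs_le] at h1
      have h3 := hCz z (by linarith [h1.1])
      refine h3.trans ?_
      rw [← Real.exp_log (by linarith : 0 < C')]
      exact Real.exp_le_exp.mpr hlogC
    · refine ⟨(2 : ℝ) + τ * I, mem_closedBall_self (by positivity), ?_⟩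
      have h1 := h10 τ
      have h2 : Real.exp (-(α 0 * L)) ≤ 1 / 4 := by
        have h3 : Real.exp (-Real.log 4) = 1 / 4 := by
          rw [Real.exp_neg, Real.exp_log (by norm_num)]; norm_num
        rw [← h3]
        exact Real.exp_le_exp.mpr (by linarith)
      refine h2.trans ?_
      have h4 : (((2 : ℝ) : ℂ) + τ * I) = 2 + τ * I := by push_cast; ring
      rw [h4]
      exact h1
  · -- the step
    intro k hk p hpS hp q hqS hpq
    obtain ⟨⟨g1, g2⟩, g3⟩ := hS'box p hpS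
    rw [abs_le] at g3
    obtain ⟨hα3, hα4⟩ := hα2 k hk
    have hN : ((⌊η * L⌋₊ : ℕ) : ℝ) ≤ η * L := Nat.floor_le (by positivity)
    have hcnt : CountLe riemannZeta Up (closedBall p (R / 2)) ⌊η * L⌋₊ := by
      apply h6 p (R / 2) ⌊η * L⌋₊ Up isOpen_Up (ball_Up (by linarith [g3.1])) one_notMem_Up
      have h1 := hcount' p hpS
      have h2 : zeroCount p (R / 2) ≤ ⌊η * L⌋ := Int.le_floor.mpr h1
      have h3 : (⌊η * L⌋ : ℤ) = ((⌊η * L⌋₊ : ℕ) : ℤ) :=
        (Int.natCast_floor_eq_floor (by positivity)).symm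
      rw [← h3]
      exact h2
    have hαk := hα0 k
    have hcond : C * (α k * L + (⌊η * L⌋₊ : ℕ)) ≤ 2 * L := by
      calc C * (α k * L + (⌊η * L⌋₊ : ℕ)) ≤ C * (α k * L + η * L) := by gcongr
        _ = C * (α k + η) * L := by ring
        _ ≤ 2 * L := by gcongr
    have hbound : ∀ z ∈ closedBall p R, ‖riemannZeta z‖ ≤ Real.exp (2 * L) := by
      intro z hz
      have hz' : ‖z - p‖ ≤ R := by rw [← dist_eq_norm]; exact hz
      have h1 := (abs_re_le_norm _).trans hz'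
      have h2 := (abs_im_le_norm _).trans hz'
      rw [sub_re, abs_le] at h1
      rw [sub_im, abs_le] at h2
      apply hT₁ T hTT1 z (by linarith [h1.1]) (by linarith [h1.2])
      rw [abs_le]
      constructor <;> linarith [h2.1, h2.2]
    obtain ⟨h7, h8'⟩ := h4 riemannZeta Up p R (2 * L) (α k * L) ⌊η * L⌋₊ hR0 isOpen_Up
      (ball_Up (by linarith [g3.1])) diff_Up (by positivity) hbound hcnt (by positivity) hcond
      hp.1 hp.2
    · have hexp : C * ((α k * L + (⌊η * L⌋₊ : ℕ)) ^ (1 / 4 : ℝ) * (2 * L) ^ (3 / 4 : ℝ)) ≤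
          α (k + 1) * L := by
        have e1 : (α k * L + (⌊η * L⌋₊ : ℕ)) ^ (1 / 4 : ℝ) ≤ ((α k + η) * L) ^ (1 / 4 : ℝ) := by
          apply Real.rpow_le_rpow (by positivity) _ (by norm_num)
          linarith
        have e2 : ((α k + η) * L) ^ (1 / 4 : ℝ) = (α k + η) ^ (1 / 4 : ℝ) * L ^ (1 / 4 : ℝ) :=
          Real.mul_rpow (by positivity) hL0.le
        have e3 : (2 * L) ^ (3 / 4 : ℝ) = 2 ^ (3 / 4 : ℝ) * L ^ (3 / 4 : ℝ) :=
          Real.mul_rpow (by norm_num) hL0.le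
        have e4 : L ^ (1 / 4 : ℝ) * L ^ (3 / 4 : ℝ) = L := by
          rw [← Real.rpow_add hL0]; norm_num
        calc C * ((α k * L + (⌊η * L⌋₊ : ℕ)) ^ (1 / 4 : ℝ) * (2 * L) ^ (3 / 4 : ℝ))
            ≤ C * (((α k + η) * L) ^ (1 / 4 : ℝ) * (2 * L) ^ (3 / 4 : ℝ)) := by gcongr
          _ = C * ((α k + η) ^ (1 / 4 : ℝ) * 2 ^ (3 / 4 : ℝ)) *
                (L ^ (1 / 4 : ℝ) * L ^ (3 / 4 : ℝ)) := by rw [e2, e3]; ring
          _ ≤ α (k + 1) * L := by rw [e4]; gcongr
      constructor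
      · intro z hz
        have hz2 : z ∈ closedBall p (R / 16) := by
          rw [mem_closedBall] at hz ⊢
          calc dist z p ≤ dist z q + dist q p := dist_triangle _ _ _
            _ ≤ R / 32 + R / 32 := by
                rw [dist_comm q p]
                exact add_le_add hz hpq
            _ = R / 16 := by ring
        exact (h7 z hz2).trans (Real.exp_le_exp.mpr hexp)
      · obtain ⟨w, hw, hw2⟩ := h8' q (by rw [mem_closedBall, dist_comm]; exact hpq)
        exact ⟨w, hw, (Real.exp_le_exp.mpr (by linarith)).trans hw2⟩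

end Pool.Agent.LHW
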